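import Mathlib

open MeasureTheory Filter Topology Set

namespace Pool.Agent.Lib.MP_4abfef_an

/-- The automorphisms of a measure space `(Z, μ)`: bijections of `Z`, measurable in both directions,
which preserve `μ`. (As usual, automorphisms which agree almost everywhere are indistinguishable for
the topology below.) -/
def Aut {Z : Type*} [MeasurableSpace Z] (μ : Measure Z) : Type _ :=
  {S : Z ≃ᵐ Z // MeasurePreserving S μ μ}

instance {Z : Type*} [MeasurableSpace Z] (μ : Measure Z) : CoeFun (Aut μ) (fun _ => Z → Z) :=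
  ⟨fun S => S.1⟩

/-- The Halmos (weak) topology on the automorphisms: the coarsest topology for which
`S ↦ μ (S⁻¹ A ∩ B)` is continuous for all measurable sets `A`, `B`. -/
instance {Z : Type*} [MeasurableSpace Z] (μ : Measure Z) : TopologicalSpace (Aut μ) :=
  ⨅ (A : {A : Set Z // MeasurableSet A}) (B : {B : Set Z // MeasurableSet B}),
    TopologicalSpace.induced (fun S : Aut μ => μ (S ⁻¹' A.1 ∩ B.1)) inferInstance

/-- Mixing of multiplicity `k`: for all measurable `A₀, …, A_k`,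
`μ (A₀ ∩ ⋂_{j=1}^k T^{m₁+⋯+m_j} A_j) → μ(A₀) ⋯ μ(A_k)` as `m₁, …, m_k → ∞` simultaneously. -/
def Mix {Z : Type*} [MeasurableSpace Z] {μ : Measure Z} (k : ℕ) (T : Aut μ) : Prop :=
  ∀ A : Fin (k + 1) → Set Z, (∀ i, MeasurableSet (A i)) →
    Tendsto (fun m : Fin k → ℕ =>
        μ (A 0 ∩ ⋂ j : Fin k, T^[∑ i ∈ Finset.Iic j, m i] '' A j.succ))
      atTop (𝓝 (μ (A 0) * ∏ j : Fin k, μ (A j.succ)))

/-- The set `ℰ(T)` of extensions of `T` to `(X × Y, μ ⊗ ν)`: the automorphisms of the form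
`S (x, y) = (T x, Φ_x y)` (almost everywhere), where every `Φ_x` is an automorphism of `(Y, ν)`. -/
def Ext {X Y : Type*} [MeasurableSpace X] [MeasurableSpace Y] {μ : Measure X} (T : Aut μ)
    (ν : Measure Y) : Set (Aut (μ.prod ν)) :=
  {S | ∃ Φ : X → Aut ν, ∀ᵐ p ∂(μ.prod ν), S p = (T p.1, Φ p.1 p.2)}

end Pool.Agent.Lib.MP_4abfef_an
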