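import Mathlib

open MeasureTheory Filter Topology Set

namespace Pool.Agent.Lib.MP_4abfef_an

lemma not_countable_of_noAtoms {Z : Type*} [MeasurableSpace Z] (μ : Measure Z)
    [IsProbabilityMeasure μ] [NullSingletonClass μ] : ¬ Countable Z := by
  intro h
  have h1 : μ (univ : Set Z) = 0 := Set.Countable.measure_zero (Set.countable_univ) μ
  simp at h1

lemma exists_null_uncountable {Z : Type*} [MeasurableSpace Z] [StandardBorelSpace Z]
    (μ : Measure Z) [IsProbabilityMeasure μ] [NullSingletonClass μ] :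
    ∃ N : Set Z, MeasurableSet N ∧ ¬ N.Countable ∧ μ N = 0 := by
  have hZ : ¬ Countable Z := not_countable_of_noAtoms μ
  have hne : Nonempty Z := by
    by_contra h
    rw [not_nonempty_iff] at h
    exact hZ inferInstance
  have hZZ : ¬ Countable (Z × Z) := by
    intro h
    exact hZ (Function.Surjective.countable (f := (Prod.fst : Z × Z → Z)) Prod.fst_surjective)
  let e : Z ≃ᵐ Z × Z := PolishSpace.measurableEquivOfNotCountable hZ hZZ
  let N : Z → Set Z := fun z => e ⁻¹' ({z} ×ˢ univ)
  have hNm : ∀ z, MeasurableSet (N z) := fun z =>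
    e.measurable ((measurableSet_singleton z).prod MeasurableSet.univ)
  have hdisj : Pairwise (Function.onFun Disjoint N) := by
    intro z z' hzz
    rw [Function.onFun, Set.disjoint_left]
    intro a ha ha'
    simp only [N, mem_preimage, mem_prod, mem_singleton_iff, mem_univ, and_true] at ha ha'
    exact hzz (ha.symm.trans ha')
  have hc : {z | 0 < μ (N z)}.Countable :=
    Measure.countable_meas_pos_of_disjoint_iUnion hNm hdisj
  have : ∃ z, z ∉ {z | 0 < μ (N z)} := by
    by_contra h
    push Not at h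
    have : {z | 0 < μ (N z)} = univ := Set.eq_univ_of_forall h
    rw [this] at hc
    exact hZ (Set.countable_univ_iff.1 hc)
  obtain ⟨z, hz⟩ := this
  refine ⟨N z, hNm z, ?_, by simpa using hz⟩
  intro hcount
  apply hZ
  have hinj : Function.Injective (fun w : Z => e.symm (z, w)) := by
    intro w w' hww
    have := e.symm.injective hww
    exact (Prod.mk.inj this).2
  have hsub : range (fun w : Z => e.symm (z, w)) ⊆ N z := by
    rintro _ ⟨w, rfl⟩
    simp [N]
  have := hcount.mono hsub
  rw [← Set.image_univ] at this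
  exact Set.countable_univ_iff.1 (Set.countable_of_injective_of_countable_image hinj.injOn this)

/-- A measure preserving map which is injective off a null set agrees almost everywhere with a
measurable equivalence. -/
lemma exists_equiv_ae {Z W : Type*} [MeasurableSpace Z] [StandardBorelSpace Z]
    [MeasurableSpace W] [StandardBorelSpace W] (μ : Measure Z) (ν : Measure W)
    [IsProbabilityMeasure μ] [IsProbabilityMeasure ν] [NullSingletonClass μ] [NullSingletonClass ν]
    (f : Z → W) (hf : MeasurePreserving f μ ν) (Z₀ : Set Z) (hZ₀ : MeasurableSet Z₀)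
    (hμ : μ Z₀ᶜ = 0) (hinj : InjOn f Z₀) :
    ∃ e : Z ≃ᵐ W, MeasurePreserving e μ ν ∧ ∀ᵐ z ∂μ, e z = f z := by
  classical
  obtain ⟨N, hN, hNc, hN0⟩ := exists_null_uncountable μ
  obtain ⟨N', hN', hNc', hN0'⟩ := exists_null_uncountable ν
  set Z₁ : Set Z := Z₀ \ (N ∪ f ⁻¹' N') with hZ₁def
  have hZ₁ : MeasurableSet Z₁ := hZ₀.diff (hN.union (hf.measurable hN'))
  have hinj₁ : InjOn f Z₁ := hinj.mono sdiff_subset
  have hW₁ : MeasurableSet (f '' Z₁) := hZ₁.image_of_measurable_injOn hf.measurable hinj₁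
  have hμ₁ : μ Z₁ᶜ = 0 := by
    have : Z₁ᶜ ⊆ Z₀ᶜ ∪ (N ∪ f ⁻¹' N') := by
      intro z hz
      by_cases h : z ∈ Z₀
      · right
        by_contra h2
        exact hz ⟨h, h2⟩
      · exact Or.inl h
    refine measure_mono_null this (measure_union_null hμ (measure_union_null hN0 ?_))
    rw [hf.measure_preimage hN'.nullMeasurableSet, hN0']
  have hc1 : ¬ Countable (↥Z₁ᶜ) := by
    intro h
    have h2 : (Z₁ᶜ).Countable := Set.countable_coe_iff.1 h
    refine hNc (h2.mono ?_)
    intro z hz hz1
    exact hz1.2 (Or.inl hz)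
  have hc2 : ¬ Countable (↥(f '' Z₁)ᶜ) := by
    intro h
    have h2 : ((f '' Z₁)ᶜ).Countable := Set.countable_coe_iff.1 h
    refine hNc' (h2.mono ?_)
    rintro w hw ⟨z, hz, rfl⟩
    exact hz.2 (Or.inr hw)
  have : StandardBorelSpace Z₁ := hZ₁.standardBorel
  have : StandardBorelSpace (↥Z₁ᶜ) := hZ₁.compl.standardBorel
  have : StandardBorelSpace (↥(f '' Z₁)ᶜ) := hW₁.compl.standardBorel
  have hmeas : Measurable (Z₁.domRestrict f) := hf.measurable.comp measurable_subtype_coe
  have hemb : MeasurableEmbedding (Z₁.domRestrict f) :=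
    hmeas.measurableEmbedding (injOn_iff_injective.1 hinj₁)
  have hr : range (Z₁.domRestrict f) = f '' Z₁ := by rw [Set.range_domRestrict]
  obtain ⟨e₁, he₁⟩ : ∃ e₁ : Z₁ ≃ᵐ (f '' Z₁ : Set W), ∀ z, (e₁ z : W) = f z := by
    rw [← hr]
    exact ⟨hemb.equivRange, fun z => by rw [hemb.equivRange_apply]; rfl⟩
  let e₂ : (↥Z₁ᶜ) ≃ᵐ (↥(f '' Z₁)ᶜ) := PolishSpace.measurableEquivOfNotCountable hc1 hc2
  let e : Z ≃ᵐ W := (MeasurableEquiv.sumCompl hZ₁).symm.trans
    ((MeasurableEquiv.sumCongr e₁ e₂).trans (MeasurableEquiv.sumCompl hW₁))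
  have hef : ∀ z ∈ Z₁, e z = f z := by
    intro z hz
    have h1 : (MeasurableEquiv.sumCompl hZ₁).symm z = Sum.inl ⟨z, hz⟩ := by
      rw [MeasurableEquiv.symm_apply_eq]
      rfl
    show (MeasurableEquiv.sumCompl hW₁) ((MeasurableEquiv.sumCongr e₁ e₂)
      ((MeasurableEquiv.sumCompl hZ₁).symm z)) = f z
    rw [h1]
    exact he₁ ⟨z, hz⟩
  have hae : ∀ᵐ z ∂μ, e z = f z := by
    rw [ae_iff]
    refine measure_mono_null ?_ hμ₁
    intro z hz hz1
    exact hz (hef z hz1)
  refine ⟨e, ⟨e.measurable, ?_⟩, hae⟩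
  rw [Measure.map_congr hae, hf.map_eq]

/-- Lebesgue measure on `(0,1)`. -/
noncomputable def leb01 : Measure (Ioo (0 : ℝ) 1) := Measure.comap Subtype.val volume

lemma leb01_apply (t : Set (Ioo (0 : ℝ) 1)) : leb01 t = volume (Subtype.val '' t) :=
  comap_subtype_coe_apply measurableSet_Ioo volume t

instance : IsProbabilityMeasure leb01 := ⟨by
  rw [leb01_apply, image_univ, Subtype.range_coe, Real.volume_Ioo]
  simp⟩

instance : NullSingletonClass leb01 := ⟨fun x => by
  rw [leb01_apply, image_singleton]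
  simp⟩

/-- The quantile map: a nonatomic Borel probability measure on `ℝ` is the image of Lebesgue measure
on `(0,1)` under an injective measurable map. -/
lemma exists_quantile (ρ : Measure ℝ) [IsProbabilityMeasure ρ] [NullSingletonClass ρ] :
    ∃ Q : Ioo (0 : ℝ) 1 → ℝ, Function.Injective Q ∧ MeasurePreserving Q leb01 ρ := by
  set F := ProbabilityTheory.cdf ρ with hF
  have hmono : Monotone F := ProbabilityTheory.monotone_cdf ρ
  have hcont : Continuous F := by
    rw [continuous_iff_continuousAt]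
    intro x
    rw [hmono.continuousAt_iff_leftLim_eq_rightLim]
    have h1 : ρ {x} = 0 := measure_singleton x
    rw [← ProbabilityTheory.measure_cdf ρ, StieltjesFunction.measure_singleton,
      ENNReal.ofReal_eq_zero] at h1
    have h2 : Function.leftLim F x ≤ F x := hmono.leftLim_le le_rfl
    have h3 : Function.rightLim F x = F x := F.rightLim_eq x
    linarith
  have hsurj : ∀ t : Ioo (0 : ℝ) 1, ∃ x, F x = t := by
    rintro ⟨t, ht0, ht1⟩
    have h0 := ProbabilityTheory.tendsto_cdf_atBot ρ
    have h1 := ProbabilityTheory.tendsto_cdf_atTop ρ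
    obtain ⟨a, ha⟩ := (h0.eventually (gt_mem_nhds ht0)).exists
    obtain ⟨b, hb⟩ := (h1.eventually (lt_mem_nhds ht1)).exists
    exact mem_range_of_exists_le_of_exists_ge hcont ⟨a, ha.le⟩ ⟨b, hb.le⟩
  choose Q hQ using hsurj
  have hstrict : StrictMono Q := by
    intro s t hst
    by_contra h
    push Not at h
    have := hmono h
    rw [hQ, hQ] at this
    exact absurd hst (not_lt.2 (by exact_mod_cast this))
  have hQm : Measurable Q := hstrict.monotone.measurable
  refine ⟨Q, hstrict.injective, hQm, ?_⟩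
  have : IsProbabilityMeasure (leb01.map Q) := Measure.isProbabilityMeasure_map hQm.aemeasurable
  refine Measure.ext_of_Iic _ _ fun x => ?_
  rw [Measure.map_apply hQm measurableSet_Iic, leb01_apply, ← ProbabilityTheory.ofReal_cdf ρ x]
  have h0 : 0 ≤ F x := ProbabilityTheory.cdf_nonneg ρ x
  have h1 : F x ≤ 1 := ProbabilityTheory.cdf_le_one ρ x
  refine le_antisymm ?_ ?_
  · have hsub : Subtype.val '' (Q ⁻¹' Iic x) ⊆ Ioc 0 (F x) := by
      rintro _ ⟨t, ht, rfl⟩
      refine ⟨t.2.1, ?_⟩
      rw [← hQ t]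
      exact hmono ht
    refine (measure_mono hsub).trans ?_
    rw [Real.volume_Ioc, sub_zero]
  · have hsub : Ioo 0 (F x) ⊆ Subtype.val '' (Q ⁻¹' Iic x) := by
      rintro t ⟨ht0, ht1⟩
      refine ⟨⟨t, ht0, ht1.trans_le h1⟩, ?_, rfl⟩
      rw [mem_preimage, mem_Iic]
      by_contra h
      push Not at h
      have := hmono h.le
      rw [hQ] at this
      exact absurd ht1 (not_lt.2 this)
    refine le_trans ?_ (measure_mono hsub)
    rw [Real.volume_Ioo, sub_zero]

/-- Isomorphism with the standard model. -/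
lemma exists_equiv_leb01 {Y : Type*} [MeasurableSpace Y] [StandardBorelSpace Y] (ν : Measure Y)
    [IsProbabilityMeasure ν] [NullSingletonClass ν] :
    ∃ e : Ioo (0 : ℝ) 1 ≃ᵐ Y, MeasurePreserving e leb01 ν := by
  have hY : ¬ Countable Y := not_countable_of_noAtoms ν
  have hR : ¬ Countable ℝ := by
    rw [← Set.countable_univ_iff]
    exact Cardinal.not_countable_real
  let a : Y ≃ᵐ ℝ := PolishSpace.measurableEquivOfNotCountable hY hR
  have hprob : IsProbabilityMeasure (ν.map a) :=
    Measure.isProbabilityMeasure_map a.measurable.aemeasurable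
  have hnull : NullSingletonClass (ν.map a) := ⟨fun x => by
    rw [a.map_apply]
    have : a ⁻¹' {x} = {a.symm x} := by
      ext y
      simp only [mem_preimage, mem_singleton_iff]
      exact ⟨fun h => by rw [← h, a.symm_apply_apply], fun h => by rw [h, a.apply_symm_apply]⟩
    rw [this, measure_singleton]⟩
  obtain ⟨Q, hQi, hQ⟩ := exists_quantile (ν.map a)
  have hsb : StandardBorelSpace (Ioo (0 : ℝ) 1) := measurableSet_Ioo.standardBorel
  have hb : MeasurePreserving a.symm (ν.map a) ν := by
    refine ⟨a.symm.measurable, ?_⟩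
    rw [Measure.map_map a.symm.measurable a.measurable]
    simp
  have hf : MeasurePreserving (a.symm ∘ Q) leb01 ν := hb.comp hQ
  obtain ⟨e, he, -⟩ := exists_equiv_ae leb01 ν (a.symm ∘ Q) hf univ MeasurableSet.univ (by simp)
    ((a.symm.injective.comp hQi).injOn)
  exact ⟨e, he⟩

/-- The isomorphism theorem for nonatomic standard Borel probability spaces. -/
theorem exists_equiv {Y W : Type*} [MeasurableSpace Y] [StandardBorelSpace Y] (ν : Measure Y)
    [IsProbabilityMeasure ν] [NullSingletonClass ν] [MeasurableSpace W] [StandardBorelSpace W]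
    (ρ : Measure W) [IsProbabilityMeasure ρ] [NullSingletonClass ρ] :
    ∃ e : Y ≃ᵐ W, MeasurePreserving e ν ρ := by
  obtain ⟨a, ha⟩ := exists_equiv_leb01 ν
  obtain ⟨b, hb⟩ := exists_equiv_leb01 ρ
  exact ⟨a.symm.trans b, hb.comp (ha.symm a)⟩

end Pool.Agent.Lib.MP_4abfef_an
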