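import Mathlib
import Pool.Agent.Lib.MP_4abfef_an.Defs
import Pool.Agent.Lib.MP_4abfef_an.Fix

open MeasureTheory Filter Topology Set

namespace Pool.Agent.Lib.MP_4abfef_an

section basic

variable {Z : Type*} [MeasurableSpace Z] {μ : Measure Z}

lemma Aut.mp (T : Aut μ) : MeasurePreserving T μ μ := T.2

lemma Aut.mpi (T : Aut μ) (n : ℕ) : MeasurePreserving (T^[n]) μ μ := T.2.iterate n

lemma Aut.mps (T : Aut μ) : MeasurePreserving T.1.symm μ μ := T.2.symm T.1

lemma Aut.mpsi (T : Aut μ) (n : ℕ) : MeasurePreserving (T.1.symm^[n]) μ μ := T.mps.iterate n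

lemma Aut.symm_apply (T : Aut μ) (z : Z) : T.1.symm (T z) = z := T.1.symm_apply_apply z

lemma Aut.apply_symm (T : Aut μ) (z : Z) : T (T.1.symm z) = z := T.1.apply_symm_apply z

lemma Aut.left_iter (T : Aut μ) (n : ℕ) (z : Z) : T.1.symm^[n] (T^[n] z) = z :=
  Function.LeftInverse.iterate T.symm_apply n z

lemma Aut.right_iter (T : Aut μ) (n : ℕ) (z : Z) : T^[n] (T.1.symm^[n] z) = z :=
  Function.LeftInverse.iterate T.apply_symm n z

lemma Aut.comm_iter (T : Aut μ) (m n : ℕ) (z : Z) :
    T^[m] (T.1.symm^[n] z) = T.1.symm^[n] (T^[m] z) := by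
  have h : Function.Commute (T : Z → Z) T.1.symm := fun z => by
    rw [T.apply_symm, T.symm_apply]
  exact (h.iterate_iterate m n) z

lemma Aut.image_iter (T : Aut μ) (n : ℕ) (A : Set Z) : T^[n] '' A = T.1.symm^[n] ⁻¹' A := by
  ext z
  constructor
  · rintro ⟨w, hw, rfl⟩
    rw [mem_preimage, T.left_iter]
    exact hw
  · intro h
    exact ⟨_, h, T.right_iter n z⟩

/-- The partial sums `m₁ + ⋯ + m_l`. -/
def Mi {k : ℕ} (m : Fin k → ℕ) (l : Fin (k + 1)) : ℕ := ∑ i : Fin k, if (i : ℕ) < l then m i else 0

lemma Mi_zero {k : ℕ} (m : Fin k → ℕ) : Mi m 0 = 0 := by simp [Mi]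

lemma Mi_succ {k : ℕ} (m : Fin k → ℕ) (j : Fin k) : Mi m j.succ = ∑ i ∈ Finset.Iic j, m i := by
  rw [Mi, ← Finset.sum_filter]
  apply Finset.sum_congr _ (fun _ _ => rfl)
  ext i
  simp only [Finset.mem_filter, Finset.mem_univ, true_and, Fin.val_succ, Finset.mem_Iic,
    Fin.le_def]
  omega

lemma mix_set_eq {k : ℕ} (T : Aut μ) (A : Fin (k + 1) → Set Z) (m : Fin k → ℕ) :
    A 0 ∩ ⋂ j : Fin k, T^[∑ i ∈ Finset.Iic j, m i] '' A j.succ =
      {z | ∀ l, T.1.symm^[Mi m l] z ∈ A l} := by
  ext z
  simp only [mem_inter_iff, mem_iInter, T.image_iter, mem_preimage, mem_ofPred_eq]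
  constructor
  · rintro ⟨h0, h1⟩ l
    refine Fin.cases ?_ (fun j => ?_) l
    · rw [Mi_zero]; exact h0
    · rw [Mi_succ]; exact h1 j
  · intro h
    refine ⟨?_, fun j => ?_⟩
    · have := h 0
      rwa [Mi_zero] at this
    · have := h j.succ
      rwa [Mi_succ] at this

variable [IsProbabilityMeasure μ]

lemma mix_iff {k : ℕ} (T : Aut μ) : Mix k T ↔ ∀ A : Fin (k + 1) → Set Z,
    (∀ i, MeasurableSet (A i)) →
      Tendsto (fun m : Fin k → ℕ => μ.real {z | ∀ l, T.1.symm^[Mi m l] z ∈ A l}) atTop
        (𝓝 (∏ l, μ.real (A l))) := by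
  unfold Mix
  refine forall_congr' fun A => forall_congr' fun hA => ?_
  simp only [mix_set_eq, ← Fin.prod_univ_succ (fun l => μ (A l))]
  have h1 : ∏ l, μ.real (A l) = (∏ l, μ (A l)).toReal := by
    rw [ENNReal.toReal_prod]
    rfl
  rw [h1]
  constructor
  · intro h
    exact (ENNReal.tendsto_toReal (ENNReal.prod_ne_top fun _ _ => measure_ne_top _ _)).comp h
  · intro h
    rwa [← ENNReal.tendsto_toReal_iff (fun _ => measure_ne_top _ _)
      (ENNReal.prod_ne_top fun _ _ => measure_ne_top _ _)]

lemma mix_one {k : ℕ} (hk : 1 ≤ k) {T : Aut μ} (hT : Mix k T) {A B : Set Z}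
    (hA : MeasurableSet A) (hB : MeasurableSet B) :
    Tendsto (fun n : ℕ => μ.real (T^[n] ⁻¹' A ∩ B)) atTop (𝓝 (μ.real A * μ.real B)) := by
  classical
  obtain ⟨k, rfl⟩ : ∃ k', k = k' + 1 := ⟨k - 1, by omega⟩
  let D : Fin (k + 1 + 1) → Set Z := fun l => if l = 0 then A else if l = 1 then B else univ
  have hD : ∀ i, MeasurableSet (D i) := by
    intro i
    dsimp only [D]
    split_ifs
    exacts [hA, hB, MeasurableSet.univ]
  have h1 := (mix_iff T).1 hT D hD
  have hdiag : Tendsto (fun n : ℕ => (fun _ : Fin (k + 1) => n)) atTop atTop := by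
    rw [tendsto_atTop_atTop]
    intro b
    refine ⟨∑ i, b i, fun a ha i => ?_⟩
    exact (Finset.single_le_sum (fun _ _ => Nat.zero_le _) (Finset.mem_univ i)).trans ha
  have h2 := h1.comp hdiag
  have hprod : ∏ l, μ.real (D l) = μ.real A * μ.real B := by
    rw [Fin.prod_univ_succ, Fin.prod_univ_succ]
    have h3 : ∀ i : Fin k, μ.real (D i.succ.succ) = 1 := by
      intro i
      have : D i.succ.succ = univ := by
        dsimp only [D]
        rw [if_neg (Fin.succ_ne_zero _), if_neg]
        intro h
        have := congrArg Fin.val h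
        simp at this
      rw [this]
      simp
    simp only [h3, Finset.prod_const_one, mul_one]
    have e0 : D 0 = A := by simp [D]
    have e1 : D (Fin.succ 0) = B := by simp [D]
    rw [e0, e1]
  rw [hprod] at h2
  refine h2.congr (fun n => ?_)
  simp only [Function.comp]
  have hset : {z | ∀ l, T.1.symm^[Mi (fun _ : Fin (k + 1) => n) l] z ∈ D l} =
      A ∩ T.1.symm^[n] ⁻¹' B := by
    ext z
    simp only [mem_ofPred_eq, mem_inter_iff, mem_preimage]
    constructor
    · intro h
      constructor
      · have := h 0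
        rw [Mi_zero] at this
        simpa [D] using this
      · have := h (Fin.succ 0)
        rw [Mi_succ] at this
        have e2 : ∑ i ∈ Finset.Iic (0 : Fin (k + 1)), n = n := by
          have : Finset.Iic (0 : Fin (k + 1)) = {0} := by
            ext i
            simp
          rw [this]
          simp
        rw [e2] at this
        simpa [D] using this
    · rintro ⟨ha, hb⟩ l
      refine Fin.cases ?_ (fun j => ?_) l
      · rw [Mi_zero]
        simpa [D] using ha
      · refine Fin.cases ?_ (fun j => ?_) j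
        · rw [Mi_succ]
          have e2 : ∑ i ∈ Finset.Iic (0 : Fin (k + 1)), n = n := by
            have : Finset.Iic (0 : Fin (k + 1)) = {0} := by
              ext i
              simp
            rw [this]
            simp
          rw [e2]
          simpa [D] using hb
        · have : D j.succ.succ = univ := by
            dsimp only [D]
            rw [if_neg (Fin.succ_ne_zero _), if_neg]
            intro h
            have := congrArg Fin.val h
            simp at this
          rw [this]
          trivial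
  rw [hset]
  have hm : MeasurableSet (A ∩ T.1.symm^[n] ⁻¹' B) := hA.inter ((T.mpsi n).measurable hB)
  rw [measureReal_def, measureReal_def, ← (T.mpi n).measure_preimage hm.nullMeasurableSet]
  congr 2
  ext z
  simp only [mem_preimage, mem_inter_iff, T.left_iter]

end basic

section ret

variable {X : Type*} [MeasurableSpace X] {μ : Measure X} [IsProbabilityMeasure μ]

lemma exists_small [StandardBorelSpace X] [NullSingletonClass μ] {α : ℝ} (hα : 0 < α) :
    ∃ A : Set X, MeasurableSet A ∧ 0 < μ.real A ∧ μ.real A ≤ α := by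
  obtain ⟨e, he⟩ := exists_equiv_leb01 μ
  set δ := min α 1 with hδ
  have hδ0 : 0 < δ := lt_min hα one_pos
  have hδ1 : δ ≤ 1 := min_le_right _ _
  let s : Set (Ioo (0 : ℝ) 1) := {t | (t : ℝ) < δ}
  have hs : MeasurableSet s := measurableSet_lt measurable_subtype_coe measurable_const
  have hsv : leb01 s = ENNReal.ofReal δ := by
    rw [leb01_apply]
    have : Subtype.val '' s = Ioo 0 δ := by
      ext t
      constructor
      · rintro ⟨t, ht, rfl⟩
        exact ⟨t.2.1, ht⟩
      · rintro ⟨h1, h2⟩
        exact ⟨⟨t, h1, h2.trans_le hδ1⟩, h2, rfl⟩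
    rw [this, Real.volume_Ioo, sub_zero]
  refine ⟨e.symm ⁻¹' s, e.symm.measurable hs, ?_⟩
  have h1 : μ (e.symm ⁻¹' s) = ENNReal.ofReal δ := by
    rw [(he.symm e).measure_preimage hs.nullMeasurableSet, hsv]
  rw [measureReal_def, h1, ENNReal.toReal_ofReal hδ0.le]
  exact ⟨hδ0, min_le_left _ _⟩

/-- A measurable `ℕ`-valued function which increases by one along the orbits except on a set of
small measure (the time since the last visit to a small set). -/
lemma exists_ret [StandardBorelSpace X] [NullSingletonClass μ] {k : ℕ} (hk : 1 ≤ k) {T : Aut μ}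
    (hT : Mix k T) {α : ℝ} (hα : 0 < α) :
    ∃ r : X → ℕ, Measurable r ∧ μ.real {x | r (T x) ≠ r x + 1} ≤ α := by
  obtain ⟨A, hA, hA0, hA1⟩ := exists_small (μ := μ) hα
  let E : Set X := {x | ∀ j : ℕ, T.1.symm^[j] x ∉ A}
  have hE : MeasurableSet E := by
    have : E = ⋂ j : ℕ, (T.1.symm^[j] ⁻¹' A)ᶜ := by
      ext x; simp [E]
    rw [this]
    exact MeasurableSet.iInter fun j => ((T.mpsi j).measurable hA).compl
  have hE0 : μ.real E = 0 := by
    have h1 := mix_one hk hT hE hA
    have h2 : ∀ n : ℕ, μ.real (T^[n] ⁻¹' E ∩ A) = 0 := by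
      intro n
      have : T^[n] ⁻¹' E ∩ A = ∅ := by
        ext x
        simp only [mem_inter_iff, mem_preimage, mem_empty_iff_false, iff_false, not_and]
        intro hx hxA
        have := hx n
        rw [T.left_iter] at this
        exact this hxA
      rw [this]
      simp
    simp only [h2] at h1
    have h3 := tendsto_nhds_unique tendsto_const_nhds h1
    rcases mul_eq_zero.1 h3.symm with h | h
    · exact h
    · exact absurd h hA0.ne'
  let r : X → ℕ := fun x => sInf {j | T.1.symm^[j] x ∈ A}
  have hr : Measurable r := by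
    refine measurable_of_Iic fun j => ?_
    have : r ⁻¹' Iic j = (⋃ i ∈ Finset.range (j + 1), T.1.symm^[i] ⁻¹' A) ∪ E := by
      ext x
      simp only [mem_preimage, mem_Iic, mem_union, mem_iUnion, Finset.mem_range, exists_prop, r]
      constructor
      · intro h
        by_cases hx : ({j | T.1.symm^[j] x ∈ A} : Set ℕ).Nonempty
        · left
          exact ⟨_, by omega, Nat.sInf_mem hx⟩
        · right
          rw [Set.not_nonempty_iff_eq_empty] at hx
          intro j hj
          have : j ∈ ({j | T.1.symm^[j] x ∈ A} : Set ℕ) := hj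
          rw [hx] at this
          exact this
      · rintro (⟨i, hi, hiA⟩ | h)
        · exact (Nat.sInf_le hiA).trans (by omega)
        · have : ({j | T.1.symm^[j] x ∈ A} : Set ℕ) = ∅ := by
            ext j
            simp only [mem_ofPred_eq, mem_empty_iff_false, iff_false]
            exact h j
          rw [this]
          simp
    rw [this]
    exact (Finset.measurableSet_biUnion _ fun i _ => (T.mpsi i).measurable hA).union hE
  refine ⟨r, hr, ?_⟩
  have hsub : {x | r (T x) ≠ r x + 1} ⊆ T ⁻¹' A ∪ E := by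
    intro x hx
    by_contra hcon
    simp only [mem_union, mem_preimage, not_or] at hcon
    obtain ⟨h1, h2⟩ := hcon
    have h2' : ∃ j : ℕ, T.1.symm^[j] x ∈ A := by
      by_contra h
      push Not at h
      exact h2 h
    apply hx
    have hne : ({j | T.1.symm^[j] x ∈ A} : Set ℕ).Nonempty := h2'
    have hiter : ∀ j : ℕ, T.1.symm^[j + 1] (T x) = T.1.symm^[j] x := by
      intro j
      rw [Function.iterate_succ_apply, T.symm_apply]
    have hne' : ({j | T.1.symm^[j] (T x) ∈ A} : Set ℕ).Nonempty := by
      obtain ⟨j, hj⟩ := h2'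
      exact ⟨j + 1, by rw [mem_ofPred_eq, hiter]; exact hj⟩
    apply le_antisymm
    · apply Nat.sInf_le
      rw [mem_ofPred_eq, hiter]
      exact Nat.sInf_mem hne
    · have h3 := Nat.sInf_mem hne'
      rcases Nat.eq_zero_or_eq_succ_pred (r (T x)) with h4 | h4
      · exfalso
        have h5 : T.1.symm^[r (T x)] (T x) ∈ A := h3
        rw [h4] at h5
        exact h1 h5
      · have h5 : T.1.symm^[r (T x)] (T x) ∈ A := h3
        rw [h4, Nat.succ_eq_add_one, hiter] at h5
        have h6 : r x ≤ (r (T x)).pred := Nat.sInf_le h5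
        omega
  calc μ.real {x | r (T x) ≠ r x + 1} ≤ μ.real (T ⁻¹' A ∪ E) := measureReal_mono hsub
    _ ≤ μ.real (T ⁻¹' A) + μ.real E := measureReal_union_le _ _
    _ ≤ α := by
        rw [hE0, add_zero, measureReal_def, T.mp.measure_preimage hA.nullMeasurableSet]
        exact hA1

lemma near_uniform {n : ℕ} [NeZero n] (h : X → ZMod n) (hh : Measurable h) (T' : X → X)
    (hT' : MeasurePreserving T' μ μ) {α : ℝ} (hα : μ.real {x | h (T' x) ≠ h x + 1} ≤ α)
    (b : ZMod n) : |μ.real {x | h x = b} - 1 / n| ≤ n * α := by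
  have hm : ∀ b, MeasurableSet {x | h x = b} := fun b => hh (measurableSet_singleton b)
  have hα0 : 0 ≤ α := le_trans measureReal_nonneg hα
  have hpre : ∀ b, μ.real (T' ⁻¹' {x | h x = b}) = μ.real {x | h x = b} := by
    intro b
    rw [measureReal_def, hT'.measure_preimage (hm b).nullMeasurableSet, measureReal_def]
  have hstep : ∀ b, |μ.real {x | h x = b} - μ.real {x | h x = b + 1}| ≤ α := by
    intro b
    rw [abs_le]
    constructor
    · have hsub : T' ⁻¹' {x | h x = b + 1} ⊆ {x | h x = b} ∪ {x | h (T' x) ≠ h x + 1} := by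
        intro x hx
        by_cases h1 : h (T' x) = h x + 1
        · left
          have h2 : h (T' x) = b + 1 := hx
          rw [h1] at h2
          exact add_right_cancel h2
        · exact Or.inr h1
      have := (measureReal_mono hsub (μ := μ)).trans (measureReal_union_le _ _)
      rw [hpre] at this
      linarith
    · have hsub : {x | h x = b} ⊆ T' ⁻¹' {x | h x = b + 1} ∪ {x | h (T' x) ≠ h x + 1} := by
        intro x hx
        by_cases h1 : h (T' x) = h x + 1
        · left
          have h2 : h x = b := hx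
          rw [mem_preimage, mem_ofPred_eq, h1, h2]
        · exact Or.inr h1
      have := (measureReal_mono hsub (μ := μ)).trans (measureReal_union_le _ _)
      rw [hpre] at this
      linarith
  have hsteps : ∀ (b : ZMod n) (j : ℕ),
      |μ.real {x | h x = b} - μ.real {x | h x = b + j}| ≤ j * α := by
    intro b j
    induction j with
    | zero => simp
    | succ j ih =>
      have h1 := hstep (b + j)
      have h2 : b + (j : ZMod n) + 1 = b + ((j + 1 : ℕ) : ZMod n) := by push_cast; ring
      rw [h2] at h1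
      have h3 := abs_sub_le (μ.real {x | h x = b}) (μ.real {x | h x = b + j})
        (μ.real {x | h x = b + ((j + 1 : ℕ) : ZMod n)})
      push_cast at *
      linarith
  have hall : ∀ b b' : ZMod n, |μ.real {x | h x = b} - μ.real {x | h x = b'}| ≤ n * α := by
    intro b b'
    have h1 := hsteps b (b' - b).val
    rw [ZMod.natCast_val, ZMod.cast_id', id, add_sub_cancel] at h1
    refine h1.trans (mul_le_mul_of_nonneg_right ?_ hα0)
    exact_mod_cast (ZMod.val_lt (b' - b)).le
  have hsum : ∑ b' : ZMod n, μ.real {x | h x = b'} = 1 := by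
    have h1 : μ.real (⋃ b' ∈ (Finset.univ : Finset (ZMod n)), {x | h x = b'}) =
        ∑ b' : ZMod n, μ.real {x | h x = b'} := by
      apply measureReal_biUnion_finset
      · intro i _ j _ hij
        rw [Function.onFun, Set.disjoint_left]
        intro x hx hx'
        exact hij (hx.symm.trans hx')
      · intro i _
        exact hm i
      · intro i _
        exact measure_ne_top _ _
    rw [← h1]
    have h2 : (⋃ b' ∈ (Finset.univ : Finset (ZMod n)), {x | h x = b'}) = univ := by
      ext x; simp
    rw [h2]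
    simp
  have hn : (0 : ℝ) < n := by exact_mod_cast Nat.pos_of_ne_zero (NeZero.ne n)
  have hkey : |(n : ℝ) * μ.real {x | h x = b} - 1| ≤ n * (n * α) := by
    rw [← hsum]
    have h1 : (n : ℝ) * μ.real {x | h x = b} - ∑ b' : ZMod n, μ.real {x | h x = b'} =
        ∑ b' : ZMod n, (μ.real {x | h x = b} - μ.real {x | h x = b'}) := by
      rw [Finset.sum_sub_distrib, Finset.sum_const, Finset.card_univ, ZMod.card, nsmul_eq_mul]
    rw [h1]
    refine (Finset.abs_sum_le_sum_abs _ _).trans ?_
    refine (Finset.sum_le_sum fun b' _ => hall b b').trans ?_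
    rw [Finset.sum_const, Finset.card_univ, ZMod.card, nsmul_eq_mul]
  have h3 : μ.real {x | h x = b} - 1 / n = (n * μ.real {x | h x = b} - 1) / n := by
    field_simp
  rw [h3, abs_div, abs_of_pos hn, div_le_iff₀ hn]
  linarith

lemma exists_h [StandardBorelSpace X] [NullSingletonClass μ] {k : ℕ} (hk : 1 ≤ k) {T : Aut μ}
    (hT : Mix k T) (n : ℕ) [NeZero n] {δ η : ℝ} (hδ : 0 < δ) (hη : 0 < η) :
    ∃ h : X → ZMod n, Measurable h ∧ μ.real {x | h (T x) ≠ h x} ≤ δ ∧
      ∀ b, |μ.real {x | h x = b} - 1 / n| ≤ η := by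
  have hn : (0 : ℝ) < n := by exact_mod_cast Nat.pos_of_ne_zero (NeZero.ne n)
  obtain ⟨L', hL'⟩ := exists_nat_gt (2 / δ)
  set L := L' + 1 with hL
  have hLpos : (0 : ℝ) < L := by positivity
  have hL2 : 1 / (L : ℝ) ≤ δ / 2 := by
    rw [div_le_div_iff₀ hLpos two_pos]
    rw [div_lt_iff₀ hδ] at hL'
    have : (L : ℝ) = L' + 1 := by rw [hL]; push_cast; ring
    rw [this]
    nlinarith
  set α := min (δ / (2 * (L + 1))) (η / (n * L)) with hα
  have hα0 : 0 < α := by positivity
  have hα1 : α * (2 * (L + 1)) ≤ δ := by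
    have := min_le_left (δ / (2 * ((L : ℝ) + 1))) (η / (n * L))
    rwa [← hα, le_div_iff₀ (by positivity)] at this
  have hα2 : α * (n * L) ≤ η := by
    have := min_le_right (δ / (2 * ((L : ℝ) + 1))) (η / (n * L))
    rwa [← hα, le_div_iff₀ (by positivity)] at this
  obtain ⟨r, hr, hrT⟩ := exists_ret hk hT hα0
  have : NeZero L := ⟨by omega⟩
  refine ⟨fun x => ((r x / L : ℕ) : ZMod n), ?_, ?_, ?_⟩
  · exact (measurable_of_countable (fun j : ℕ => ((j / L : ℕ) : ZMod n))).comp hr
  · have hsub : {x | ((r (T x) / L : ℕ) : ZMod n) ≠ ((r x / L : ℕ) : ZMod n)} ⊆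
        {x | r (T x) ≠ r x + 1} ∪ {x | ((r x : ℕ) : ZMod L) = -1} := by
      intro x hx
      by_contra hcon
      simp only [mem_union, mem_ofPred_eq, not_or, not_not] at hcon
      obtain ⟨h1, h2⟩ := hcon
      apply hx
      rw [h1]
      congr 1
      rw [Nat.succ_div, if_neg, add_zero]
      intro h3
      apply h2
      have : ((r x + 1 : ℕ) : ZMod L) = 0 := (ZMod.natCast_eq_zero_iff _ _).2 h3
      push_cast at this
      exact eq_neg_of_add_eq_zero_left this
    have h1 := near_uniform (μ := μ) (n := L) (fun x => ((r x : ℕ) : ZMod L))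
      ((measurable_of_countable (fun j : ℕ => (j : ZMod L))).comp hr) T T.mp (α := α) (by
        refine le_trans (measureReal_mono ?_) hrT
        intro x hx hx'
        exact hx (by rw [hx']; push_cast; rfl)) (-1)
    have h2 := (abs_le.1 h1).2
    have h3 := (measureReal_mono hsub (μ := μ)).trans (measureReal_union_le _ _)
    have h4 : α * (2 * ((L : ℝ) + 1)) = 2 * (α + L * α) := by ring
    linarith
  · intro b
    have hbad : μ.real {x | ((r (T^[L] x) / L : ℕ) : ZMod n) ≠ ((r x / L : ℕ) : ZMod n) + 1} ≤
        L * α := by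
      have hsub : {x | ((r (T^[L] x) / L : ℕ) : ZMod n) ≠ ((r x / L : ℕ) : ZMod n) + 1} ⊆
          ⋃ i ∈ Finset.range L, T^[i] ⁻¹' {x | r (T x) ≠ r x + 1} := by
        intro x hx
        by_contra hcon
        simp only [mem_iUnion, Finset.mem_range, mem_preimage, mem_ofPred_eq, exists_prop,
          not_exists, not_and, not_not] at hcon
        apply hx
        have h1 : ∀ i ≤ L, r (T^[i] x) = r x + i := by
          intro i hi
          induction i with
          | zero => simp
          | succ i ih =>
            rw [Function.iterate_succ_apply', hcon i (by omega), ih (by omega)]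
            ring
        rw [h1 L le_rfl, Nat.add_div_right _ (by omega)]
        push_cast
        ring
      refine (measureReal_mono hsub (measure_ne_top μ _)).trans ?_
      refine (measureReal_biUnion_finset_le _ _).trans ?_
      have h1 : ∀ i ∈ Finset.range L, μ.real (T^[i] ⁻¹' {x | r (T x) ≠ r x + 1}) ≤ α := by
        intro i _
        rw [measureReal_def, (T.mpi i).measure_preimage]
        · exact hrT
        · apply MeasurableSet.nullMeasurableSet
          exact (measurableSet_eq_fun (hr.comp T.mp.measurable)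
            ((measurable_of_countable (fun j : ℕ => j + 1)).comp hr)).compl
      refine (Finset.sum_le_sum h1).trans ?_
      rw [Finset.sum_const, Finset.card_range, nsmul_eq_mul]
    have h1 := near_uniform (μ := μ) (n := n) (fun x => ((r x / L : ℕ) : ZMod n))
      ((measurable_of_countable (fun j : ℕ => ((j / L : ℕ) : ZMod n))).comp hr) (T^[L]) (T.mpi L)
      hbad b
    refine h1.trans ?_
    linarith

/-- An almost invariant function with values in a finite set, almost uniformly distributed and
almost independent of finitely many given sets. -/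
lemma exists_g [StandardBorelSpace X] [NullSingletonClass μ] {k : ℕ} (hk : 1 ≤ k) {T : Aut μ}
    (hT : Mix k T) {K : Type*} [Fintype K] [Nonempty K] [MeasurableSpace K]
    [MeasurableSingletonClass K] {ι : Type*} [Finite ι] (A : ι → Set X)
    (hA : ∀ i, MeasurableSet (A i)) {δ η : ℝ} (hδ : 0 < δ) (hη : 0 < η) :
    ∃ g : X → K, Measurable g ∧ μ.real {x | g (T x) ≠ g x} ≤ δ ∧
      ∀ i b, |μ.real ({x | g x = b} ∩ A i) - μ.real (A i) / Fintype.card K| ≤ η := by
  classical
  set n := Fintype.card K with hn
  have hnpos : 0 < n := Fintype.card_pos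
  have : NeZero n := ⟨hnpos.ne'⟩
  obtain ⟨h, hh, hδh, hu⟩ := exists_h hk hT n hδ (half_pos hη)
  let β : ZMod n ≃ K := Fintype.equivOfCardEq (by rw [ZMod.card])
  have hlim : ∀ i b, ∀ᶠ M : ℕ in atTop,
      |μ.real (T^[M] ⁻¹' {x | h x = b} ∩ A i) - μ.real {x | h x = b} * μ.real (A i)| ≤ η / 2 := by
    intro i b
    have := mix_one hk hT (hh (measurableSet_singleton b)) (hA i)
    have h2 := (Metric.tendsto_nhds.1 this) (η / 2) (half_pos hη)
    filter_upwards [h2] with M hM
    rw [Real.dist_eq] at hM
    exact hM.le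
  have hlim2 : ∀ᶠ M : ℕ in atTop, ∀ i b,
      |μ.real (T^[M] ⁻¹' {x | h x = b} ∩ A i) - μ.real {x | h x = b} * μ.real (A i)| ≤ η / 2 := by
    rw [eventually_all]
    intro i
    rw [eventually_all]
    intro b
    exact hlim i b
  obtain ⟨M, hM⟩ := hlim2.exists
  refine ⟨fun x => β (h (T^[M] x)), ?_, ?_, ?_⟩
  · exact (measurable_of_countable β).comp (hh.comp (T.mpi M).measurable)
  · have : {x | β (h (T^[M] (T x))) ≠ β (h (T^[M] x))} = T^[M] ⁻¹' {x | h (T x) ≠ h x} := by
      ext x
      simp only [mem_ofPred_eq, mem_preimage, ne_eq, β.injective.eq_iff]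
      rw [← Function.iterate_succ_apply, Function.iterate_succ_apply']
    rw [this, measureReal_def, (T.mpi M).measure_preimage]
    · exact hδh
    · exact (measurableSet_eq_fun (hh.comp T.mp.measurable) hh).compl.nullMeasurableSet
  · intro i b
    have h1 : {x | β (h (T^[M] x)) = b} = T^[M] ⁻¹' {x | h x = β.symm b} := by
      ext x
      simp only [mem_ofPred_eq, mem_preimage]
      rw [Equiv.eq_symm_apply]
    rw [h1]
    have h2 := hM i (β.symm b)
    have h3 := hu (β.symm b)
    have h4 : |μ.real {x | h x = β.symm b} * μ.real (A i) - μ.real (A i) / n| ≤ η / 2 := by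
      have h5 : μ.real {x | h x = β.symm b} * μ.real (A i) - μ.real (A i) / n =
          (μ.real {x | h x = β.symm b} - 1 / n) * μ.real (A i) := by ring
      rw [h5, abs_mul, abs_of_nonneg (measureReal_nonneg (μ := μ) (s := A i))]
      have h6 : μ.real (A i) ≤ 1 := measureReal_le_one
      have h7 : 0 ≤ μ.real (A i) := measureReal_nonneg
      nlinarith [abs_nonneg (μ.real {x | h x = β.symm b} - 1 / n)]
    have h8 := abs_sub_le (μ.real (T^[M] ⁻¹' {x | h x = β.symm b} ∩ A i))
      (μ.real {x | h x = β.symm b} * μ.real (A i)) (μ.real (A i) / n)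
    linarith

end ret

end Pool.Agent.Lib.MP_4abfef_an
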