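import Mathlib
import Pool.Agent.Lib.MP_4abfef_an.Base

open MeasureTheory Filter Topology Set

namespace Pool.Agent.Lib.MP_4abfef_an

set_option linter.unusedSectionVars false

variable {X : Type*} [MeasurableSpace X] {μ : Measure X} [IsProbabilityMeasure μ]

/-- The event that the points `T^{τ} T^{-M_l} x` lie in the sets `D l`. -/
def Ev {k : ℕ} (T : Aut μ) (D : Fin (k + 1) → Set X) (τ : ℕ) (m : Fin k → ℕ) : Set X :=
  {x | ∀ l, T^[τ] (T.1.symm^[Mi m l] x) ∈ D l}

lemma measurableSet_Ev {k : ℕ} (T : Aut μ) {D : Fin (k + 1) → Set X}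
    (hD : ∀ l, MeasurableSet (D l)) (τ : ℕ) (m : Fin k → ℕ) : MeasurableSet (Ev T D τ m) := by
  have : Ev T D τ m = ⋂ l, (T^[τ] ∘ T.1.symm^[Mi m l]) ⁻¹' D l := by
    ext x; simp [Ev]
  rw [this]
  exact MeasurableSet.iInter fun l =>
    ((T.mpi τ).measurable.comp (T.mpsi (Mi m l)).measurable) (hD l)

lemma real_preimage_iter (T : Aut μ) (n : ℕ) {A : Set X} (hA : MeasurableSet A) :
    μ.real (T^[n] ⁻¹' A) = μ.real A := by
  rw [measureReal_def, (T.mpi n).measure_preimage hA.nullMeasurableSet, measureReal_def]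

lemma tendsto_Ev {k : ℕ} {T : Aut μ} (hT : Mix k T) {D : Fin (k + 1) → Set X}
    (hD : ∀ l, MeasurableSet (D l)) (τ : ℕ) :
    Tendsto (fun m => μ.real (Ev T D τ m)) atTop (𝓝 (∏ l, μ.real (D l))) := by
  have h := (mix_iff T).1 hT (fun l => T^[τ] ⁻¹' D l) (fun l => (T.mpi τ).measurable (hD l))
  simp only [real_preimage_iter T τ (hD _)] at h
  exact h

lemma tendsto_Ev_inter {k : ℕ} {T : Aut μ} (hT : Mix k T) {D : Fin (k + 1) → Set X}
    (hD : ∀ l, MeasurableSet (D l)) (σ τ : ℕ) :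
    Tendsto (fun m => μ.real (Ev T D σ m ∩ Ev T D τ m)) atTop
      (𝓝 (∏ l, μ.real (T^[σ] ⁻¹' D l ∩ T^[τ] ⁻¹' D l))) := by
  have h := (mix_iff T).1 hT (fun l => T^[σ] ⁻¹' D l ∩ T^[τ] ⁻¹' D l)
    (fun l => ((T.mpi σ).measurable (hD l)).inter ((T.mpi τ).measurable (hD l)))
  refine h.congr (fun m => ?_)
  congr 1
  ext x
  simp only [Ev, mem_inter_iff, mem_ofPred_eq, mem_preimage]
  exact forall_and

lemma tendsto_time {k : ℕ} (hk : 1 ≤ k) {T : Aut μ} (hT : Mix k T) {A : Set X}
    (hA : MeasurableSet A) {i j : ℕ} (hij : i ≠ j) :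
    Tendsto (fun t : ℕ => μ.real (T^[i * t] ⁻¹' A ∩ T^[j * t] ⁻¹' A)) atTop
      (𝓝 (μ.real A * μ.real A)) := by
  wlog h : i < j generalizing i j
  · have h2 := this (Ne.symm hij) (lt_of_le_of_ne (not_lt.1 h) (Ne.symm hij))
    simpa only [inter_comm] using h2
  · have h1 := mix_one hk hT hA hA
    have h2 : Tendsto (fun t : ℕ => (j - i) * t) atTop atTop :=
      tendsto_id.const_mul_atTop' (by omega)
    refine (h1.comp h2).congr (fun t => ?_)
    simp only [Function.comp]
    have hm : MeasurableSet (T^[(j - i) * t] ⁻¹' A ∩ A) := ((T.mpi _).measurable hA).inter hA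
    rw [← real_preimage_iter T (i * t) hm]
    congr 1
    ext x
    simp only [mem_preimage, mem_inter_iff, ← Function.iterate_add_apply]
    have : (j - i) * t + i * t = j * t := by
      rw [← Nat.add_mul, Nat.sub_add_cancel h.le]
    rw [this, and_comm]

lemma abs_le_quad (a : ℝ) {ε : ℝ} (hε : 0 < ε) : |a| ≤ ε / 2 + a ^ 2 / (2 * ε) := by
  have h1 : (|a| - ε) ^ 2 ≥ 0 := sq_nonneg _
  have h2 : ε / 2 + a ^ 2 / (2 * ε) - |a| = (|a| - ε) ^ 2 / (2 * ε) := by
    rw [← sq_abs a]
    field_simp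
    ring
  have h3 : 0 ≤ (|a| - ε) ^ 2 / (2 * ε) := by positivity
  linarith

/-- The averaged indicator of the events `Ev`. -/
noncomputable def wav {k : ℕ} (T : Aut μ) (D : Fin (k + 1) → Set X) (N t : ℕ) (m : Fin k → ℕ)
    (x : X) : ℝ :=
  (1 / (N : ℝ)) * ∑ i ∈ Finset.range N, (Ev T D (i * t) m).indicator (fun _ => (1 : ℝ)) x

lemma measurable_wav {k : ℕ} (T : Aut μ) {D : Fin (k + 1) → Set X}
    (hD : ∀ l, MeasurableSet (D l)) (N t : ℕ) (m : Fin k → ℕ) : Measurable (wav T D N t m) := by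
  refine Measurable.const_mul ?_ _
  exact Finset.measurable_sum _ (fun i _ => measurable_const.indicator (measurableSet_Ev T hD _ _))

lemma wav_nonneg {k : ℕ} (T : Aut μ) (D : Fin (k + 1) → Set X) (N t : ℕ) (m : Fin k → ℕ) (x : X) :
    0 ≤ wav T D N t m x := by
  refine mul_nonneg (by positivity) (Finset.sum_nonneg fun i _ => ?_)
  exact indicator_nonneg (fun _ _ => zero_le_one) _

lemma wav_le_one {k : ℕ} (T : Aut μ) (D : Fin (k + 1) → Set X) (N t : ℕ) (m : Fin k → ℕ) (x : X) :
    wav T D N t m x ≤ 1 := by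
  have h1 : ∑ i ∈ Finset.range N, (Ev T D (i * t) m).indicator (fun _ => (1 : ℝ)) x ≤ N := by
    calc _ ≤ ∑ i ∈ Finset.range N, (1 : ℝ) := Finset.sum_le_sum fun i _ =>
          indicator_le_self' (fun _ _ => zero_le_one) x
      _ = N := by simp
  rcases Nat.eq_zero_or_pos N with h | h
  · subst h
    simp [wav]
  · have hN : (0 : ℝ) < N := by exact_mod_cast h
    rw [wav, one_div, inv_mul_le_iff₀ hN]
    linarith

lemma exists_times {k : ℕ} (hk : 1 ≤ k) {T : Aut μ} (hT : Mix k T) {ι : Type*} [Finite ι]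
    (D : ι → Fin (k + 1) → Set X) (hD : ∀ z l, MeasurableSet (D z l)) {ε : ℝ} (hε : 0 < ε) :
    ∃ N t : ℕ, 0 < N ∧ ∀ᶠ m : Fin k → ℕ in atTop, ∀ z,
      ∫ x, |wav T (D z) N t m x - ∏ l, μ.real (D z l)| ∂μ ≤ ε := by
  obtain ⟨N, hN⟩ := exists_nat_gt (2 / ε ^ 2)
  have hε2 : 0 < ε ^ 2 := by positivity
  have hNpos : (0 : ℝ) < N := lt_trans (by positivity) hN
  have hN0 : 0 < N := by exact_mod_cast hNpos
  have hN1 : 1 / (N : ℝ) ≤ ε ^ 2 / 2 := by
    rw [div_lt_iff₀ hε2] at hN
    rw [div_le_div_iff₀ hNpos two_pos]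
    linarith
  -- choice of the time step
  have ht : ∃ t : ℕ, ∀ z, ∀ i : Fin N, ∀ j : Fin N, i ≠ j →
      ∏ l, μ.real (T^[(i : ℕ) * t] ⁻¹' D z l ∩ T^[(j : ℕ) * t] ⁻¹' D z l) <
        (∏ l, μ.real (D z l)) ^ 2 + ε ^ 2 / 4 := by
    have : ∀ᶠ t : ℕ in atTop, ∀ z, ∀ i : Fin N, ∀ j : Fin N, i ≠ j →
      ∏ l, μ.real (T^[(i : ℕ) * t] ⁻¹' D z l ∩ T^[(j : ℕ) * t] ⁻¹' D z l) <
        (∏ l, μ.real (D z l)) ^ 2 + ε ^ 2 / 4 := by
      rw [eventually_all]
      intro z
      rw [eventually_all]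
      intro i
      rw [eventually_all]
      intro j
      by_cases hij : i = j
      · exact Eventually.of_forall fun t h => absurd hij h
      · have h1 : Tendsto (fun t : ℕ =>
            ∏ l, μ.real (T^[(i : ℕ) * t] ⁻¹' D z l ∩ T^[(j : ℕ) * t] ⁻¹' D z l)) atTop
            (𝓝 (∏ l, (μ.real (D z l) * μ.real (D z l)))) :=
          tendsto_finsetProd _ fun l _ =>
            tendsto_time hk hT (hD z l) (fun h => hij (Fin.ext h))
        have h2 : ∏ l, (μ.real (D z l) * μ.real (D z l)) = (∏ l, μ.real (D z l)) ^ 2 := by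
          rw [Finset.prod_mul_distrib, sq]
        rw [h2] at h1
        filter_upwards [h1.eventually (gt_mem_nhds (show (∏ l, μ.real (D z l)) ^ 2 <
          (∏ l, μ.real (D z l)) ^ 2 + ε ^ 2 / 4 by linarith))] with t ht _
        exact ht
    exact this.exists
  obtain ⟨t, ht⟩ := ht
  refine ⟨N, t, hN0, ?_⟩
  rw [eventually_all]
  intro z
  set c := ∏ l, μ.real (D z l) with hc
  have hc0 : 0 ≤ c := Finset.prod_nonneg fun _ _ => measureReal_nonneg
  have hc1 : c ≤ 1 := Finset.prod_le_one (fun _ _ => measureReal_nonneg)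
    (fun _ _ => measureReal_le_one)
  let E : ℕ → (Fin k → ℕ) → Set X := fun i m => Ev T (D z) (i * t) m
  have hE : ∀ i m, MeasurableSet (E i m) := fun i m => measurableSet_Ev T (hD z) _ _
  let ψ : ℕ → (Fin k → ℕ) → X → ℝ := fun i m x => (E i m).indicator (fun _ => (1 : ℝ)) x - c
  have hψm : ∀ i m, Measurable (ψ i m) := fun i m =>
    (measurable_const.indicator (hE i m)).sub measurable_const
  have hψ1 : ∀ i m x, |ψ i m x| ≤ 1 := by
    intro i m x
    simp only [ψ]
    by_cases hx : x ∈ E i m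
    · rw [indicator_of_mem hx, abs_le]
      constructor <;> linarith
    · rw [indicator_of_notMem hx, abs_le]
      constructor <;> linarith
  have hψint : ∀ i j m, Integrable (fun x => ψ i m x * ψ j m x) μ := by
    intro i j m
    refine Integrable.of_bound ((hψm i m).mul (hψm j m)).aestronglyMeasurable 1 ?_
    refine Eventually.of_forall fun x => ?_
    rw [Real.norm_eq_abs, abs_mul]
    exact mul_le_one₀ (hψ1 i m x) (abs_nonneg _) (hψ1 j m x)
  have hint : ∀ i j m, ∫ x, ψ i m x * ψ j m x ∂μ =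
      μ.real (E i m ∩ E j m) - c * μ.real (E i m) - c * μ.real (E j m) + c ^ 2 := by
    intro i j m
    have h1 : ∀ x, ψ i m x * ψ j m x = (E i m ∩ E j m).indicator (fun _ => (1 : ℝ)) x -
        c * (E i m).indicator (fun _ => (1 : ℝ)) x - c * (E j m).indicator (fun _ => (1 : ℝ)) x +
        c ^ 2 := by
      intro x
      simp only [ψ]
      by_cases hx : x ∈ E i m <;> by_cases hy : x ∈ E j m <;> simp [hx, hy] <;> ring
    simp only [h1]
    have i1 : Integrable (fun x => (E i m ∩ E j m).indicator (fun _ => (1 : ℝ)) x) μ :=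
      (integrable_const (1 : ℝ)).indicator ((hE i m).inter (hE j m))
    have i2 : ∀ i, Integrable (fun x => c * (E i m).indicator (fun _ => (1 : ℝ)) x) μ := fun i =>
      ((integrable_const (1 : ℝ)).indicator (hE i m)).const_mul c
    have j1 : Integrable (fun x => (E i m ∩ E j m).indicator (fun _ => (1 : ℝ)) x -
        c * (E i m).indicator (fun _ => (1 : ℝ)) x) μ := i1.sub (i2 i)
    have j2 : Integrable (fun x => (E i m ∩ E j m).indicator (fun _ => (1 : ℝ)) x -
        c * (E i m).indicator (fun _ => (1 : ℝ)) x -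
        c * (E j m).indicator (fun _ => (1 : ℝ)) x) μ := j1.sub (i2 j)
    rw [integral_add j2 (integrable_const _),
      integral_sub j1 (i2 j), integral_sub i1 (i2 i), integral_const_mul,
      integral_const_mul, integral_indicator ((hE i m).inter (hE j m)),
      integral_indicator (hE i m), integral_indicator (hE j m)]
    simp
  have hlim : ∀ i : Fin N, ∀ j : Fin N, i ≠ j → ∀ᶠ m : Fin k → ℕ in atTop,
      ∫ x, ψ i m x * ψ j m x ∂μ ≤ ε ^ 2 / 2 := by
    intro i j hij
    have h1 := tendsto_Ev_inter hT (hD z) (i * t) (j * t)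
    have h2 := (tendsto_Ev hT (hD z) (i * t)).const_mul c
    have h3 := (tendsto_Ev hT (hD z) (j * t)).const_mul c
    have h4 := ((h1.sub h2).sub h3).add_const (c ^ 2)
    have h5 : ∏ l, μ.real (T^[(i : ℕ) * t] ⁻¹' D z l ∩ T^[(j : ℕ) * t] ⁻¹' D z l) - c * c - c * c +
        c ^ 2 < ε ^ 2 / 2 := by
      have := ht z i j hij
      nlinarith
    filter_upwards [h4.eventually (gt_mem_nhds h5)] with m hm
    rw [hint]
    exact hm.le
  have hall : ∀ᶠ m : Fin k → ℕ in atTop, ∀ i : Fin N, ∀ j : Fin N, i ≠ j →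
      ∫ x, ψ i m x * ψ j m x ∂μ ≤ ε ^ 2 / 2 := by
    rw [eventually_all]
    intro i
    rw [eventually_all]
    intro j
    by_cases hij : i = j
    · exact Eventually.of_forall fun m h => absurd hij h
    · filter_upwards [hlim i j hij] with m hm _
      exact hm
  filter_upwards [hall] with m hm
  have hw : ∀ x, wav T (D z) N t m x - c = (1 / (N : ℝ)) * ∑ i ∈ Finset.range N, ψ i m x := by
    intro x
    simp only [wav, ψ, Finset.sum_sub_distrib, Finset.sum_const, Finset.card_range, nsmul_eq_mul]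
    field_simp
    rfl
  have hsq : ∫ x, (wav T (D z) N t m x - c) ^ 2 ∂μ ≤ ε ^ 2 := by
    have h1 : ∀ x, (wav T (D z) N t m x - c) ^ 2 = (1 / (N : ℝ)) ^ 2 *
        ∑ i ∈ Finset.range N, ∑ j ∈ Finset.range N, ψ i m x * ψ j m x := by
      intro x
      rw [hw, mul_pow, sq (∑ i ∈ Finset.range N, ψ i m x), Finset.sum_mul_sum]
    simp only [h1]
    rw [integral_const_mul, integral_finsetSum _
      (fun i _ => integrable_finsetSum _ (fun j _ => hψint i j m))]
    have h2 : ∀ i ∈ Finset.range N, ∫ x, ∑ j ∈ Finset.range N, ψ i m x * ψ j m x ∂μ ≤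
        1 + N * (ε ^ 2 / 2) := by
      intro i hi
      rw [integral_finsetSum _ (fun j _ => hψint i j m)]
      have h3 : ∀ j ∈ Finset.range N, ∫ x, ψ i m x * ψ j m x ∂μ ≤
          (if j = i then 1 else 0) + ε ^ 2 / 2 := by
        intro j hj
        by_cases hij : j = i
        · rw [if_pos hij]
          have : ∫ x, ψ i m x * ψ j m x ∂μ ≤ ∫ _, (1 : ℝ) ∂μ := by
            refine integral_mono (hψint i j m) (integrable_const _) fun x => ?_
            refine (le_abs_self _).trans ?_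
            rw [abs_mul]
            exact mul_le_one₀ (hψ1 i m x) (abs_nonneg _) (hψ1 j m x)
          simp only [integral_const, probReal_univ, smul_eq_mul, mul_one] at this
          linarith
        · rw [if_neg hij, zero_add]
          exact hm ⟨i, Finset.mem_range.1 hi⟩ ⟨j, Finset.mem_range.1 hj⟩
            (fun h => hij (congrArg Fin.val h).symm)
      refine (Finset.sum_le_sum h3).trans ?_
      rw [Finset.sum_add_distrib, Finset.sum_ite_eq', if_pos hi, Finset.sum_const,
        Finset.card_range, nsmul_eq_mul]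
    have h4 : ∑ i ∈ Finset.range N, ∫ x, ∑ j ∈ Finset.range N, ψ i m x * ψ j m x ∂μ ≤
        N * (1 + N * (ε ^ 2 / 2)) := by
      refine (Finset.sum_le_sum h2).trans ?_
      rw [Finset.sum_const, Finset.card_range, nsmul_eq_mul]
    calc (1 / (N : ℝ)) ^ 2 * ∑ i ∈ Finset.range N, ∫ x, ∑ j ∈ Finset.range N,
          ψ i m x * ψ j m x ∂μ ≤ (1 / (N : ℝ)) ^ 2 * (N * (1 + N * (ε ^ 2 / 2))) :=
          mul_le_mul_of_nonneg_left h4 (by positivity)
      _ = 1 / N + ε ^ 2 / 2 := by field_simp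
      _ ≤ ε ^ 2 := by linarith
  have hwm : Measurable (fun x => wav T (D z) N t m x - c) :=
    (measurable_wav T (hD z) N t m).sub measurable_const
  have hwb : ∀ x, |wav T (D z) N t m x - c| ≤ 1 := by
    intro x
    have := wav_nonneg T (D z) N t m x
    have := wav_le_one T (D z) N t m x
    rw [abs_le]
    constructor <;> linarith
  have hwi : Integrable (fun x => wav T (D z) N t m x - c) μ := by
    refine Integrable.of_bound hwm.aestronglyMeasurable 1 ?_
    exact Eventually.of_forall fun x => by rw [Real.norm_eq_abs]; exact hwb x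
  have hwi2 : Integrable (fun x => (wav T (D z) N t m x - c) ^ 2) μ := by
    refine Integrable.of_bound (hwm.pow_const 2).aestronglyMeasurable 1 ?_
    refine Eventually.of_forall fun x => ?_
    rw [Real.norm_eq_abs, abs_pow]
    exact pow_le_one₀ (abs_nonneg _) (hwb x)
  calc ∫ x, |wav T (D z) N t m x - c| ∂μ
      ≤ ∫ x, (ε / 2 + (wav T (D z) N t m x - c) ^ 2 / (2 * ε)) ∂μ :=
        integral_mono hwi.abs ((integrable_const _).add (hwi2.div_const _))
          (fun x => abs_le_quad _ hε)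
    _ = ε / 2 + (∫ x, (wav T (D z) N t m x - c) ^ 2 ∂μ) / (2 * ε) := by
        rw [integral_add (integrable_const _) (hwi2.div_const _)]
        congr 1
        · simp
        · exact integral_div _ _
    _ ≤ ε / 2 + ε ^ 2 / (2 * ε) := by gcongr
    _ = ε := by field_simp; ring

end Pool.Agent.Lib.MP_4abfef_an
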