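import Mathlib
import Pool.Agent.Lib.MP_4abfef_an.Base

open MeasureTheory Filter Topology Set

namespace Pool.Agent.Lib.MP_4abfef_an

set_option linter.unusedSectionVars false

section sets

variable {Z W : Type*} [MeasurableSpace Z] [MeasurableSpace W] {ρ : Measure Z} {μ : Measure W}
  [IsProbabilityMeasure ρ] [IsProbabilityMeasure μ]

lemma abs_real_sub_le_of_subset {A B E : Set Z} (h1 : A ⊆ B ∪ E) (h2 : B ⊆ A ∪ E) :
    |ρ.real A - ρ.real B| ≤ ρ.real E := by
  have h3 := (measureReal_mono h1 (μ := ρ)).trans (measureReal_union_le _ _)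
  have h4 := (measureReal_mono h2 (μ := ρ)).trans (measureReal_union_le _ _)
  rw [abs_le]
  constructor <;> linarith

lemma abs_real_sub_le_symmDiff (A B : Set Z) :
    |ρ.real A - ρ.real B| ≤ ρ.real (symmDiff A B) := by
  apply abs_real_sub_le_of_subset
  · intro x hx
    by_cases h : x ∈ B
    · exact Or.inl h
    · exact Or.inr (Or.inl ⟨hx, h⟩)
  · intro x hx
    by_cases h : x ∈ A
    · exact Or.inl h
    · exact Or.inr (Or.inr ⟨hx, h⟩)

/-- Changing the sets `A l` by little changes the joint event by little. -/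
lemma abs_real_forall_sub_le {ι : Type*} [Fintype ι] (f : ι → Z → W)
    (hf : ∀ l, MeasurePreserving (f l) ρ μ) (A B : ι → Set W) (hA : ∀ l, MeasurableSet (A l))
    (hB : ∀ l, MeasurableSet (B l)) :
    |ρ.real {z | ∀ l, f l z ∈ A l} - ρ.real {z | ∀ l, f l z ∈ B l}| ≤
      ∑ l, μ.real (symmDiff (A l) (B l)) := by
  have h1 : |ρ.real {z | ∀ l, f l z ∈ A l} - ρ.real {z | ∀ l, f l z ∈ B l}| ≤
      ρ.real (⋃ l ∈ (Finset.univ : Finset ι), f l ⁻¹' (symmDiff (A l) (B l))) := by
    apply abs_real_sub_le_of_subset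
    · intro z hz
      by_cases h : ∀ l, f l z ∈ B l
      · exact Or.inl h
      · push Not at h
        obtain ⟨l, hl⟩ := h
        right
        simp only [Finset.mem_univ, iUnion_true, mem_iUnion]
        exact ⟨l, Or.inl ⟨hz l, hl⟩⟩
    · intro z hz
      by_cases h : ∀ l, f l z ∈ A l
      · exact Or.inl h
      · push Not at h
        obtain ⟨l, hl⟩ := h
        right
        simp only [Finset.mem_univ, iUnion_true, mem_iUnion]
        exact ⟨l, Or.inr ⟨hz l, hl⟩⟩
  refine h1.trans ((measureReal_biUnion_finset_le _ _).trans ?_)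
  refine Finset.sum_le_sum fun l _ => ?_
  rw [measureReal_def, (hf l).measure_preimage ((hA l).symmDiff (hB l)).nullMeasurableSet,
    measureReal_def]

lemma abs_prod_sub_le {ι : Type*} (s : Finset ι) (a b : ι → ℝ) (ha : ∀ l, |a l| ≤ 1)
    (hb : ∀ l, |b l| ≤ 1) :
    |∏ l ∈ s, a l - ∏ l ∈ s, b l| ≤ ∑ l ∈ s, |a l - b l| := by
  classical
  induction s using Finset.induction_on with
  | empty => simp
  | insert i s hi ih =>
    rw [Finset.prod_insert hi, Finset.prod_insert hi, Finset.sum_insert hi]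
    have h1 : |∏ l ∈ s, a l| ≤ 1 := by
      rw [Finset.abs_prod]
      exact Finset.prod_le_one (fun _ _ => abs_nonneg _) (fun l _ => ha l)
    have h2 : a i * ∏ l ∈ s, a l - b i * ∏ l ∈ s, b l =
        (a i - b i) * ∏ l ∈ s, a l + b i * (∏ l ∈ s, a l - ∏ l ∈ s, b l) := by ring
    rw [h2]
    refine (abs_add_le _ _).trans ?_
    rw [abs_mul, abs_mul]
    have h3 : |a i - b i| * |∏ l ∈ s, a l| ≤ |a i - b i| * 1 :=
      mul_le_mul_of_nonneg_left h1 (abs_nonneg _)
    have h4 : |b i| * |∏ l ∈ s, a l - ∏ l ∈ s, b l| ≤ 1 * |∏ l ∈ s, a l - ∏ l ∈ s, b l| :=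
      mul_le_mul_of_nonneg_right (hb i) (abs_nonneg _)
    linarith

lemma real_preimage {f : Z → W} (hf : MeasurePreserving f ρ μ) {A : Set W}
    (hA : MeasurableSet A) : ρ.real (f ⁻¹' A) = μ.real A := by
  rw [measureReal_def, hf.measure_preimage hA.nullMeasurableSet, measureReal_def]

end sets

section topo

variable {Z : Type*} [MeasurableSpace Z] {μ : Measure Z}

lemma nhds_aut (S : Aut μ) : 𝓝 S = ⨅ (A : {A : Set Z // MeasurableSet A})
    (B : {B : Set Z // MeasurableSet B}),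
      comap (fun S' : Aut μ => μ (S' ⁻¹' A.1 ∩ B.1)) (𝓝 (μ (S ⁻¹' A.1 ∩ B.1))) := by
  rw [nhds_iInf]
  simp only [nhds_iInf, nhds_induced]

variable [IsProbabilityMeasure μ]

lemma tendsto_aut {α : Type*} {F : Filter α} {f : α → Aut μ} {S : Aut μ} :
    Tendsto f F (𝓝 S) ↔ ∀ A B : Set Z, MeasurableSet A → MeasurableSet B →
      Tendsto (fun a => μ.real (f a ⁻¹' A ∩ B)) F (𝓝 (μ.real (S ⁻¹' A ∩ B))) := by
  rw [nhds_aut]
  simp only [tendsto_iInf, tendsto_comap_iff]
  constructor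
  · intro h A B hA hB
    exact (ENNReal.tendsto_toReal (measure_ne_top _ _)).comp (h ⟨A, hA⟩ ⟨B, hB⟩)
  · intro h A B
    have := h A.1 B.1 A.2 B.2
    exact (ENNReal.tendsto_toReal_iff (fun _ => measure_ne_top _ _) (measure_ne_top _ _)).1 this

lemma measurableSet_iter_preimage (S : Aut μ) (n : ℕ) {A : Set Z} (hA : MeasurableSet A) :
    MeasurableSet (S^[n] ⁻¹' A) := (S.mpi n).measurable hA

/-- If `S'` and `S` differ on a small set, they are close. -/
lemma tendsto_of_ne_small {α : Type*} {F : Filter α} {f : α → Aut μ} {S : Aut μ}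
    (h : Tendsto (fun a => μ.real {z | f a z ≠ S z}) F (𝓝 0)) : Tendsto f F (𝓝 S) := by
  rw [tendsto_aut]
  intro A B hA hB
  rw [tendsto_iff_dist_tendsto_zero]
  refine squeeze_zero (fun _ => dist_nonneg) (fun a => ?_) h
  rw [Real.dist_eq]
  apply abs_real_sub_le_of_subset
  · rintro z ⟨h1, h2⟩
    by_cases h3 : f a z = S z
    · left
      refine ⟨?_, h2⟩
      rw [mem_preimage, ← h3]
      exact h1
    · exact Or.inr h3
  · rintro z ⟨h1, h2⟩
    by_cases h3 : f a z = S z
    · left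
      refine ⟨?_, h2⟩
      rw [mem_preimage, h3]
      exact h1
    · exact Or.inr h3

lemma symmDiff_real (A B : Set Z) (hA : MeasurableSet A) (hB : MeasurableSet B) :
    μ.real (symmDiff A B) = μ.real A + μ.real B - 2 * μ.real (A ∩ B) := by
  have h1 : μ.real (symmDiff A B) = μ.real (A \ B) + μ.real (B \ A) := by
    have : symmDiff A B = (A \ B) ∪ (B \ A) := rfl
    rw [this, measureReal_union (disjoint_sdiff_sdiff) (hB.diff hA)]
  have h2 := measureReal_inter_add_sdiff (μ := μ) (s := A) hB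
  have h3 := measureReal_inter_add_sdiff (μ := μ) (s := B) hA
  rw [inter_comm] at h3
  linarith

/-- The iterates depend continuously on the automorphism. -/
lemma eventually_iter_close (S : Aut μ) (n : ℕ) {A : Set Z} (hA : MeasurableSet A) {η : ℝ}
    (hη : 0 < η) : ∀ᶠ S' : Aut μ in 𝓝 S, μ.real (symmDiff (S'^[n] ⁻¹' A) (S^[n] ⁻¹' A)) < η := by
  induction n generalizing η with
  | zero => exact Eventually.of_forall fun S' => by simpa using hη
  | succ n ih =>
    have h1 := ih (half_pos hη)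
    set E := S^[n] ⁻¹' A with hE
    have hEm : MeasurableSet E := measurableSet_iter_preimage S n hA
    have h2 : Tendsto (fun S' : Aut μ => μ.real (symmDiff (S' ⁻¹' E) (S ⁻¹' E))) (𝓝 S) (𝓝 0) := by
      have h3 := (tendsto_aut (S := S) (F := 𝓝 S) (f := id)).1 tendsto_id E (S ⁻¹' E) hEm
        (S.mp.measurable hEm)
      have h4 : ∀ S' : Aut μ, μ.real (symmDiff (S' ⁻¹' E) (S ⁻¹' E)) =
          2 * μ.real E - 2 * μ.real (S' ⁻¹' E ∩ S ⁻¹' E) := by
        intro S'
        rw [symmDiff_real _ _ (S'.mp.measurable hEm) (S.mp.measurable hEm),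
          real_preimage S'.mp hEm, real_preimage S.mp hEm]
        ring
      simp only [h4]
      have h5 := (h3.const_mul 2).const_sub (2 * μ.real E)
      rw [inter_self, real_preimage S.mp hEm, sub_self] at h5
      exact h5
    have h3 := h2.eventually (gt_mem_nhds (half_pos hη))
    filter_upwards [h1, h3] with S' h4 h5
    have h6 : symmDiff (S'^[n + 1] ⁻¹' A) (S^[n + 1] ⁻¹' A) ⊆
        S' ⁻¹' (symmDiff (S'^[n] ⁻¹' A) E) ∪ symmDiff (S' ⁻¹' E) (S ⁻¹' E) := by
      have e1 : S'^[n + 1] ⁻¹' A = S' ⁻¹' (S'^[n] ⁻¹' A) := rfl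
      have e2 : S^[n + 1] ⁻¹' A = S ⁻¹' E := rfl
      have e3 : S' ⁻¹' (symmDiff (S'^[n] ⁻¹' A) E) =
        symmDiff (S' ⁻¹' (S'^[n] ⁻¹' A)) (S' ⁻¹' E) := rfl
      rw [e1, e2, e3]
      exact symmDiff_triangle _ _ _
    have h7 := (measureReal_mono h6 (μ := μ)).trans (measureReal_union_le _ _)
    rw [real_preimage S'.mp ((measurableSet_iter_preimage S' n hA).symmDiff hEm)] at h7
    linarith

/-- The `k`-fold correlation converges for all measurable sets as soon as it does for a dense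
family. -/
lemma mix_of_dense {k : ℕ} (S : Aut μ) (𝒟 : Set (Set Z)) (h𝒟 : ∀ s ∈ 𝒟, MeasurableSet s)
    (hd : ∀ s, MeasurableSet s → ∀ ε : ℝ, 0 < ε → ∃ t ∈ 𝒟, μ.real (symmDiff s t) < ε)
    (h : ∀ A : Fin (k + 1) → Set Z, (∀ l, A l ∈ 𝒟) →
      Tendsto (fun m : Fin k → ℕ => μ.real {z | ∀ l, S.1.symm^[Mi m l] z ∈ A l}) atTop
        (𝓝 (∏ l, μ.real (A l)))) : Mix k S := by
  rw [mix_iff]
  intro A hA
  rw [Metric.tendsto_nhds]
  intro ε hε
  have hk : (0 : ℝ) < 3 * (k + 1) := by positivity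
  have hex : ∀ l, ∃ t ∈ 𝒟, μ.real (symmDiff (A l) t) < ε / (3 * (k + 1)) := fun l =>
    hd (A l) (hA l) _ (div_pos hε hk)
  choose B hB hAB using hex
  have hBm : ∀ l, MeasurableSet (B l) := fun l => h𝒟 _ (hB l)
  have hsum : ∑ l, μ.real (symmDiff (A l) (B l)) ≤ ε / 3 := by
    refine (Finset.sum_le_sum fun l _ => (hAB l).le).trans ?_
    rw [Finset.sum_const, Finset.card_univ, Fintype.card_fin, nsmul_eq_mul]
    push_cast
    apply le_of_eq
    field_simp
  filter_upwards [(Metric.tendsto_nhds.1 (h B hB)) (ε / 3) (by positivity)] with m hm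
  rw [Real.dist_eq] at hm ⊢
  have h1 := abs_real_forall_sub_le (fun l => S.1.symm^[Mi m l]) (fun l => S.mpsi (Mi m l)) A B
    hA hBm
  have h2 : |∏ l, μ.real (A l) - ∏ l, μ.real (B l)| ≤ ε / 3 := by
    refine (abs_prod_sub_le _ _ _ ?_ ?_).trans
      ((Finset.sum_le_sum fun l _ => abs_real_sub_le_symmDiff _ _).trans hsum)
    · intro l
      rw [abs_of_nonneg measureReal_nonneg]
      exact measureReal_le_one
    · intro l
      rw [abs_of_nonneg measureReal_nonneg]
      exact measureReal_le_one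
  have h3 := abs_sub_le (μ.real {z | ∀ l, S.1.symm^[Mi m l] z ∈ A l})
    (μ.real {z | ∀ l, S.1.symm^[Mi m l] z ∈ B l}) (∏ l, μ.real (A l))
  have h4 := abs_sub_le (μ.real {z | ∀ l, S.1.symm^[Mi m l] z ∈ B l})
    (∏ l, μ.real (B l)) (∏ l, μ.real (A l))
  rw [abs_sub_comm (∏ l, μ.real (B l))] at h4
  linarith

end topo

end Pool.Agent.Lib.MP_4abfef_an
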