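import Mathlib
import Pool.Agent.Lib.MP_4abfef_an.Moment
import Pool.Agent.Lib.MP_4abfef_an.Topo

open MeasureTheory Filter Topology Set

namespace Pool.Agent.Lib.MP_4abfef_an

set_option linter.unusedSectionVars false

variable {X Y : Type*} [MeasurableSpace X] [MeasurableSpace Y] {μ : Measure X} {ν : Measure Y}
  [IsProbabilityMeasure μ] [IsProbabilityMeasure ν]

lemma measurableSet_fib {X Y K : Type*} [MeasurableSpace X] [MeasurableSpace Y]
    [MeasurableSpace K] [Countable K] [MeasurableSingletonClass K] {π : Y → K}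
    (hπ : Measurable π) {D : K → Set X} (hD : ∀ c, MeasurableSet (D c)) :
    MeasurableSet {q : X × Y | q.1 ∈ D (π q.2)} := by
  have : {q : X × Y | q.1 ∈ D (π q.2)} = ⋃ c : K, D c ×ˢ (π ⁻¹' {c}) := by
    ext q
    simp only [mem_ofPred_eq, mem_iUnion, mem_prod, mem_preimage, mem_singleton_iff]
    constructor
    · intro h
      exact ⟨_, h, rfl⟩
    · rintro ⟨c, h, rfl⟩
      exact h
  rw [this]
  exact MeasurableSet.iUnion fun c => (hD c).prod (hπ (measurableSet_singleton c))

lemma ext_symm_iter {T : Aut μ} {S : Aut (μ.prod ν)} (hS : S ∈ Ext T ν) (n : ℕ) :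
    ∀ᵐ p ∂(μ.prod ν), (S.1.symm^[n] p).1 = T.1.symm^[n] p.1 := by
  obtain ⟨Φ, hΦ⟩ := hS
  have h1 : ∀ᵐ p ∂(μ.prod ν), (S.1.symm p).1 = T.1.symm p.1 := by
    have h2 := S.mps.quasiMeasurePreserving.ae hΦ
    filter_upwards [h2] with p hp
    rw [S.apply_symm] at hp
    have hp1 : p.1 = T (S.1.symm p).1 := congrArg Prod.fst hp
    rw [hp1, T.symm_apply]
  induction n with
  | zero => exact Eventually.of_forall fun p => rfl
  | succ n ih =>
    have h2 := S.mps.quasiMeasurePreserving.ae ih
    filter_upwards [h1, h2] with p hp hp'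
    rw [Function.iterate_succ_apply, Function.iterate_succ_apply, hp', hp]

lemma iter_conj {T : Aut μ} {P S : Aut (μ.prod ν)}
    (hS : ∀ p, P (S p) = (T (P p).1, (P p).2)) (n : ℕ) (p : X × Y) :
    P (S^[n] p) = (T^[n] (P p).1, (P p).2) := by
  induction n with
  | zero => rfl
  | succ n ih => rw [Function.iterate_succ_apply', hS, ih, Function.iterate_succ_apply']

/-- The key estimate: the correlations of every extension `S'` close to `S` are close to the
expected value. -/
theorem key {k : ℕ} (hk : 1 ≤ k) {T : Aut μ} (hT : Mix k T) {K : Type*} [Fintype K] [Nonempty K]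
    [MeasurableSpace K] [MeasurableSingletonClass K] (π : Y → K) (hπ : Measurable π)
    (P : Aut (μ.prod ν)) (hP : ∀ᵐ p ∂(μ.prod ν), (P p).1 = p.1)
    (S : Aut (μ.prod ν)) (hS : ∀ p, P (S p) = (T (P p).1, (P p).2))
    (A : Fin (k + 1) → Set (X × Y)) (hA : ∀ l, MeasurableSet (A l))
    (D : Fin (k + 1) → K → Set X) (hD : ∀ l c, MeasurableSet (D l c)) {η : ℝ} (hη : 0 < η)
    (hAD : ∀ l, (μ.prod ν).real (symmDiff (A l) {p | (P p).1 ∈ D l (π (P p).2)}) ≤ η)
    (hDA : ∀ l c, |μ.real (D l c) - (μ.prod ν).real (A l)| ≤ η) :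
    ∀ᶠ S' : Aut (μ.prod ν) in 𝓝 S, S' ∈ Ext T ν → ∀ᶠ m : Fin k → ℕ in atTop,
      |(μ.prod ν).real {p | ∀ l, S'.1.symm^[Mi m l] p ∈ A l} - ∏ l, (μ.prod ν).real (A l)| ≤
        (3 * (k + 1) + 1) * η := by
  classical
  set D' : (Fin (k + 1) → K) → Fin (k + 1) → Set X := fun z l => D l (z l) with hD'
  have hD'm : ∀ z l, MeasurableSet (D' z l) := fun z l => hD l (z l)
  have hcard : (0 : ℝ) < Fintype.card (Fin (k + 1) → K) := by
    exact_mod_cast Fintype.card_pos
  obtain ⟨N, t, hN, hNt⟩ := exists_times hk hT D' hD'm (div_pos hη hcard)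
  have hNpos : (0 : ℝ) < N := by exact_mod_cast hN
  have hclose : ∀ᶠ S' : Aut (μ.prod ν) in 𝓝 S, ∀ i : Fin N, ∀ l,
      (μ.prod ν).real (symmDiff (S'^[(i : ℕ) * t] ⁻¹' A l) (S^[(i : ℕ) * t] ⁻¹' A l)) < η := by
    rw [eventually_all]
    intro i
    rw [eventually_all]
    intro l
    exact eventually_iter_close S _ (hA l) hη
  filter_upwards [hclose] with S' hS' hS'E
  filter_upwards [hNt] with m hm
  set Q := ∏ l, (μ.prod ν).real (A l) with hQ
  set L := (μ.prod ν).real {p | ∀ l, S'.1.symm^[Mi m l] p ∈ A l} with hL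
  let z : X × Y → Fin (k + 1) → K := fun p l => π (P (S'.1.symm^[Mi m l] p)).2
  have hz : Measurable z := by
    refine measurable_pi_lambda _ fun l => ?_
    exact hπ.comp (measurable_snd.comp (P.mp.measurable.comp (S'.mpsi (Mi m l)).measurable))
  let E : ℕ → Set (X × Y) := fun i => {p | p.1 ∈ Ev T (D' (z p)) (i * t) m}
  have hE : ∀ i, MeasurableSet (E i) := by
    intro i
    have h1 : MeasurableSet {q : X × (Fin (k + 1) → K) | q.1 ∈ Ev T (D' (id q.2)) (i * t) m} :=
      measurableSet_fib (D := fun z => Ev T (D' z) (i * t) m) measurable_id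
        (fun z => measurableSet_Ev T (hD'm z) _ _)
    exact (measurable_fst.prodMk hz) h1
  -- step a
  have ha : ∀ i : Fin N, |L - (μ.prod ν).real (E i)| ≤ 2 * (k + 1) * η := by
    intro i
    set n := (i : ℕ) * t with hn
    have e1 : L = (μ.prod ν).real {p | ∀ l, S'.1.symm^[Mi m l] p ∈ S'^[n] ⁻¹' A l} := by
      have hmeas : MeasurableSet {p | ∀ l, S'.1.symm^[Mi m l] p ∈ A l} := by
        have : {p | ∀ l, S'.1.symm^[Mi m l] p ∈ A l} = ⋂ l, S'.1.symm^[Mi m l] ⁻¹' A l := by
          ext p; simp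
        rw [this]
        exact MeasurableSet.iInter fun l => (S'.mpsi _).measurable (hA l)
      rw [hL, ← real_preimage (S'.mpi n) hmeas]
      congr 1
      ext p
      simp only [mem_preimage, mem_ofPred_eq, S'.comm_iter]
    have e2 := abs_real_forall_sub_le (ρ := μ.prod ν) (μ := μ.prod ν)
      (fun l => S'.1.symm^[Mi m l]) (fun l => S'.mpsi _)
      (fun l => S'^[n] ⁻¹' A l) (fun l => S^[n] ⁻¹' A l)
      (fun l => (S'.mpi n).measurable (hA l)) (fun l => (S.mpi n).measurable (hA l))
    have hPD : ∀ l, MeasurableSet {p | (P p).1 ∈ D l (π (P p).2)} := fun l =>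
      P.mp.measurable (measurableSet_fib hπ (hD l))
    have e3 := abs_real_forall_sub_le (ρ := μ.prod ν) (μ := μ.prod ν)
      (fun l => S^[n] ∘ S'.1.symm^[Mi m l]) (fun l => (S.mpi n).comp (S'.mpsi _))
      A (fun l => {p | (P p).1 ∈ D l (π (P p).2)}) hA hPD
    have e4 : (μ.prod ν).real {p | ∀ l, (S^[n] ∘ S'.1.symm^[Mi m l]) p ∈
        {p | (P p).1 ∈ D l (π (P p).2)}} = (μ.prod ν).real (E i) := by
      rw [measureReal_def, measureReal_def]
      congr 1
      apply measure_congr
      have h1 : ∀ᵐ p ∂(μ.prod ν), ∀ l, (P (S'.1.symm^[Mi m l] p)).1 = T.1.symm^[Mi m l] p.1 := by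
        rw [ae_all_iff]
        intro l
        have h2 := (S'.mpsi (Mi m l)).quasiMeasurePreserving.ae hP
        filter_upwards [h2, ext_symm_iter hS'E (Mi m l)] with p h3 h4
        rw [h3, h4]
      filter_upwards [h1] with p hp
      apply propext
      change (∀ l, (P (S^[n] (S'.1.symm^[Mi m l] p))).1 ∈
        D l (π (P (S^[n] (S'.1.symm^[Mi m l] p))).2)) ↔
        ∀ l, T^[n] (T.1.symm^[Mi m l] p.1) ∈ D l (π (P (S'.1.symm^[Mi m l] p)).2)
      refine forall_congr' fun l => ?_
      rw [iter_conj hS, hp l]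
    rw [e4] at e3
    have e5 : ∑ l, (μ.prod ν).real (symmDiff (S'^[n] ⁻¹' A l) (S^[n] ⁻¹' A l)) ≤
        (k + 1) * η := by
      refine (Finset.sum_le_sum fun l _ => (hS' i l).le).trans ?_
      rw [Finset.sum_const, Finset.card_univ, Fintype.card_fin, nsmul_eq_mul]
      push_cast
      exact le_rfl
    have e6 : ∑ l, (μ.prod ν).real (symmDiff (A l) {p | (P p).1 ∈ D l (π (P p).2)}) ≤
        (k + 1) * η := by
      refine (Finset.sum_le_sum fun l _ => (hAD l)).trans ?_
      rw [Finset.sum_const, Finset.card_univ, Fintype.card_fin, nsmul_eq_mul]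
      push_cast
      exact le_rfl
    rw [← e1] at e2
    have e7 : {p | ∀ l, S'.1.symm^[Mi m l] p ∈ S^[n] ⁻¹' A l} =
      {p | ∀ l, (S^[n] ∘ S'.1.symm^[Mi m l]) p ∈ A l} := rfl
    rw [e7] at e2
    have e8 := abs_sub_le L ((μ.prod ν).real {p | ∀ l, (S^[n] ∘ S'.1.symm^[Mi m l]) p ∈ A l})
      ((μ.prod ν).real (E i))
    linarith
  -- step b
  let w : X × Y → ℝ := fun p => wav T (D' (z p)) N t m p.1
  have hwm : Measurable w := by
    have h1 : Measurable (fun q : X × (Fin (k + 1) → K) => wav T (D' q.2) N t m q.1) := by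
      refine measurable_from_prod_countable_left fun z => ?_
      exact measurable_wav T (hD'm z) N t m
    exact h1.comp (measurable_fst.prodMk hz)
  have hw1 : ∀ p, |w p| ≤ 1 := by
    intro p
    rw [abs_of_nonneg (wav_nonneg _ _ _ _ _ _)]
    exact wav_le_one _ _ _ _ _ _
  have hwint : Integrable w (μ.prod ν) :=
    Integrable.of_bound hwm.aestronglyMeasurable 1 (Eventually.of_forall fun p => by
      rw [Real.norm_eq_abs]; exact hw1 p)
  have hb : ∫ p, w p ∂(μ.prod ν) = (1 / (N : ℝ)) * ∑ i ∈ Finset.range N, (μ.prod ν).real (E i) := by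
    have h1 : ∀ p, w p = (1 / (N : ℝ)) * ∑ i ∈ Finset.range N,
        (E i).indicator (fun _ => (1 : ℝ)) p := fun p => rfl
    simp only [h1]
    rw [integral_const_mul, integral_finsetSum]
    · congr 1
      refine Finset.sum_congr rfl fun i _ => ?_
      rw [integral_indicator (hE i)]
      simp
    · intro i _
      exact (integrable_const (1 : ℝ)).indicator (hE i)
  have hb2 : |L - ∫ p, w p ∂(μ.prod ν)| ≤ 2 * (k + 1) * η := by
    rw [hb]
    have h1 : L - (1 / (N : ℝ)) * ∑ i ∈ Finset.range N, (μ.prod ν).real (E i) =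
        (1 / (N : ℝ)) * ∑ i ∈ Finset.range N, (L - (μ.prod ν).real (E i)) := by
      rw [Finset.sum_sub_distrib, Finset.sum_const, Finset.card_range, nsmul_eq_mul]
      field_simp
    rw [h1, abs_mul, abs_of_nonneg (by positivity : (0 : ℝ) ≤ 1 / N)]
    have h2 : |∑ i ∈ Finset.range N, (L - (μ.prod ν).real (E i))| ≤ N * (2 * (k + 1) * η) := by
      refine (Finset.abs_sum_le_sum_abs _ _).trans ?_
      refine (Finset.sum_le_sum (fun i hi => ha ⟨i, Finset.mem_range.1 hi⟩)).trans ?_
      rw [Finset.sum_const, Finset.card_range, nsmul_eq_mul]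
    calc 1 / (N : ℝ) * |∑ i ∈ Finset.range N, (L - (μ.prod ν).real (E i))|
        ≤ 1 / (N : ℝ) * (N * (2 * (k + 1) * η)) :=
          mul_le_mul_of_nonneg_left h2 (by positivity)
      _ = 2 * (k + 1) * η := by field_simp
  -- step c
  have hc : |∫ p, w p ∂(μ.prod ν) - Q| ≤ η + (k + 1) * η := by
    have h1 : ∀ p, |w p - Q| ≤ ∑ z : Fin (k + 1) → K,
        |wav T (D' z) N t m p.1 - ∏ l, μ.real (D' z l)| + (k + 1) * η := by
      intro p
      have h2 := abs_sub_le (w p) (∏ l, μ.real (D' (z p) l)) Q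
      have h3 : |w p - ∏ l, μ.real (D' (z p) l)| ≤ ∑ z : Fin (k + 1) → K,
          |wav T (D' z) N t m p.1 - ∏ l, μ.real (D' z l)| :=
        Finset.single_le_sum (f := fun z => |wav T (D' z) N t m p.1 - ∏ l, μ.real (D' z l)|)
          (fun _ _ => abs_nonneg _) (Finset.mem_univ (z p))
      have h4 : |∏ l, μ.real (D' (z p) l) - Q| ≤ (k + 1) * η := by
        refine (abs_prod_sub_le _ _ _ ?_ ?_).trans
          ((Finset.sum_le_sum fun l _ => hDA l _).trans ?_)
        · intro l
          rw [abs_of_nonneg measureReal_nonneg]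
          exact measureReal_le_one
        · intro l
          rw [abs_of_nonneg measureReal_nonneg]
          exact measureReal_le_one
        · rw [Finset.sum_const, Finset.card_univ, Fintype.card_fin, nsmul_eq_mul]
          push_cast
          exact le_rfl
      linarith
    have hint : ∀ z : Fin (k + 1) → K, Integrable
        (fun p : X × Y => |wav T (D' z) N t m p.1 - ∏ l, μ.real (D' z l)|) (μ.prod ν) := by
      intro z
      have hm1 : Measurable (fun p : X × Y => |wav T (D' z) N t m p.1 - ∏ l, μ.real (D' z l)|) :=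
        (((measurable_wav T (hD'm z) N t m).comp measurable_fst).sub measurable_const).abs
      refine Integrable.of_bound hm1.aestronglyMeasurable 1 (Eventually.of_forall fun p => ?_)
      rw [Real.norm_eq_abs, abs_abs, abs_le]
      have h5 := wav_nonneg T (D' z) N t m p.1
      have h6 := wav_le_one T (D' z) N t m p.1
      have h7 : 0 ≤ ∏ l, μ.real (D' z l) := Finset.prod_nonneg fun _ _ => measureReal_nonneg
      have h8 : ∏ l, μ.real (D' z l) ≤ 1 := Finset.prod_le_one (fun _ _ => measureReal_nonneg)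
        (fun _ _ => measureReal_le_one)
      constructor <;> linarith
    have h2 : ∫ p, w p ∂(μ.prod ν) - Q = ∫ p, (w p - Q) ∂(μ.prod ν) := by
      rw [integral_sub hwint (integrable_const _)]
      simp
    rw [h2]
    calc |∫ p, (w p - Q) ∂(μ.prod ν)| ≤ ∫ p, |w p - Q| ∂(μ.prod ν) := abs_integral_le_integral_abs
      _ ≤ ∫ p, (∑ z : Fin (k + 1) → K, |wav T (D' z) N t m p.1 - ∏ l, μ.real (D' z l)| +
          (k + 1) * η) ∂(μ.prod ν) := by
          refine integral_mono (hwint.sub (integrable_const _)).abs ?_ h1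
          exact (integrable_finsetSum _ fun z _ => hint z).add (integrable_const _)
      _ = ∑ z : Fin (k + 1) → K, ∫ x, |wav T (D' z) N t m x - ∏ l, μ.real (D' z l)| ∂μ +
          (k + 1) * η := by
          rw [integral_add (integrable_finsetSum _ fun z _ => hint z) (integrable_const _),
            integral_finsetSum _ fun z _ => hint z]
          congr 1
          · refine Finset.sum_congr rfl fun z _ => ?_
            have hmp : MeasurePreserving (Prod.fst : X × Y → X) (μ.prod ν) μ :=
              measurePreserving_fst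
            have h9 := integral_map (μ := μ.prod ν) (φ := Prod.fst) measurable_fst.aemeasurable
              (f := fun x => |wav T (D' z) N t m x - ∏ l, μ.real (D' z l)|)
              ((measurable_wav T (hD'm z) N t m).sub measurable_const).abs.aestronglyMeasurable
            rw [hmp.map_eq] at h9
            exact h9.symm
          · simp
      _ ≤ η + (k + 1) * η := by
          gcongr
          refine (Finset.sum_le_sum fun z _ => hm z).trans ?_
          rw [Finset.sum_const, Finset.card_univ, nsmul_eq_mul]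
          apply le_of_eq
          field_simp
  have hd := abs_sub_le L (∫ p, w p ∂(μ.prod ν)) Q
  linarith

end Pool.Agent.Lib.MP_4abfef_an
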