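import Mathlib
import Pool.Agent.Lib.MP_4abfef_an.Topo

open MeasureTheory Filter Topology Set

namespace Pool.Agent.Lib.MP_4abfef_an

set_option linter.unusedSectionVars false

/-- The compact group of binary sequences. -/
abbrev Cd : Type := ℕ → ZMod 2

/-- The first `J` coordinates of the code of a point. -/
def piece {Y : Type*} [MeasurableSpace Y] (e : Y ≃ᵐ Cd) (J : ℕ) (y : Y) : Fin J → ZMod 2 :=
  fun j => e y j

lemma measurable_piece {Y : Type*} [MeasurableSpace Y] (e : Y ≃ᵐ Cd) (J : ℕ) :
    Measurable (piece e J) :=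
  measurable_pi_lambda _ fun j => (measurable_pi_apply (j : ℕ)).comp e.measurable

/-- Extension by zero. -/
def ex {J : ℕ} (c : Fin J → ZMod 2) : Cd := fun j => if h : j < J then c ⟨j, h⟩ else 0

/-- The translation by `c` in the model. -/
def tr {Y : Type*} [MeasurableSpace Y] (e : Y ≃ᵐ Cd) (c : Cd) : Y ≃ᵐ Y :=
  (e.trans (MeasurableEquiv.addRight c)).trans e.symm

lemma tr_apply {Y : Type*} [MeasurableSpace Y] (e : Y ≃ᵐ Cd) (c : Cd) (y : Y) :
    tr e c y = e.symm (e y + c) := rfl

lemma piece_tr {Y : Type*} [MeasurableSpace Y] (e : Y ≃ᵐ Cd) {J : ℕ} (c : Fin J → ZMod 2)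
    (y : Y) : piece e J (tr e (ex c) y) = piece e J y + c := by
  funext j
  simp [piece, tr_apply, ex]

lemma measurable_tr {Y : Type*} [MeasurableSpace Y] (e : Y ≃ᵐ Cd) (J : ℕ) :
    Measurable (fun q : (Fin J → ZMod 2) × Y => tr e (ex q.1) q.2) := by
  apply measurable_from_prod_countable_right
  intro c
  exact (tr e (ex c)).measurable

/-- The code `e` is a good model for `ν` if all translations preserve `ν`. -/
def Good {Y : Type*} [MeasurableSpace Y] (ν : Measure Y) (e : Y ≃ᵐ Cd) : Prop :=
  ∀ c, MeasurePreserving (tr e c) ν ν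

lemma real_piece {Y : Type*} [MeasurableSpace Y] {ν : Measure Y} [IsProbabilityMeasure ν]
    {e : Y ≃ᵐ Cd} (he : Good ν e) (J : ℕ) (c : Fin J → ZMod 2) :
    ν.real {y | piece e J y = c} = 1 / Fintype.card (Fin J → ZMod 2) := by
  classical
  have hm : ∀ c : Fin J → ZMod 2, MeasurableSet {y | piece e J y = c} := fun c =>
    measurable_piece e J (measurableSet_singleton c)
  have h1 : ∀ c' : Fin J → ZMod 2,
      ν.real {y | piece e J y = c'} = ν.real {y | piece e J y = c} := by
    intro c'
    rw [← real_preimage (he (ex (c' - c))) (hm c')]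
    congr 1
    ext y
    rw [mem_preimage, mem_ofPred_eq, mem_ofPred_eq, piece_tr]
    constructor
    · intro h
      have := congrArg (fun u => u - (c' - c)) h
      simpa using this
    · intro h
      rw [h]
      abel
  have hsum : ∑ c' : Fin J → ZMod 2, ν.real {y | piece e J y = c'} = 1 := by
    have h2 : ν.real (⋃ b' ∈ (Finset.univ : Finset (Fin J → ZMod 2)), {y | piece e J y = b'}) =
        ∑ c' : Fin J → ZMod 2, ν.real {y | piece e J y = c'} := by
      apply measureReal_biUnion_finset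
      · intro i _ j _ hij
        rw [Function.onFun, Set.disjoint_left]
        intro x hx hx'
        exact hij (hx.symm.trans hx')
      · intro i _
        exact hm i
      · intro i _
        exact measure_ne_top _ _
    rw [← h2]
    have h3 : (⋃ b' ∈ (Finset.univ : Finset (Fin J → ZMod 2)), {y | piece e J y = b'}) = univ := by
      ext x; simp
    rw [h3]
    simp
  simp only [h1, Finset.sum_const, Finset.card_univ, nsmul_eq_mul] at hsum
  have hpos : (0 : ℝ) < Fintype.card (Fin J → ZMod 2) := by exact_mod_cast Fintype.card_pos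
  rw [eq_div_iff hpos.ne']
  linarith

lemma exists_haar : ∃ ρ : Measure Cd, IsProbabilityMeasure ρ ∧ NullSingletonClass ρ ∧
    Good ρ (MeasurableEquiv.refl Cd) := by
  let ρ : Measure Cd := Measure.addHaarMeasure ⊤
  have hρ : IsProbabilityMeasure ρ := ⟨by
    have := Measure.addHaarMeasure_self (K₀ := (⊤ : TopologicalSpace.PositiveCompacts Cd))
    simpa using this⟩
  have hg : Good ρ (MeasurableEquiv.refl Cd) := fun c => by
    have h := measurePreserving_add_right ρ c
    exact h
  refine ⟨ρ, hρ, ⟨fun x => ?_⟩, hg⟩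
  have h1 : ∀ J : ℕ, ρ.real {x} ≤ (1 / 2 : ℝ) ^ J := by
    intro J
    have h2 := real_piece hg J (piece (MeasurableEquiv.refl Cd) J x)
    have h3 : ρ.real {x} ≤ ρ.real {y | piece (MeasurableEquiv.refl Cd) J y =
        piece (MeasurableEquiv.refl Cd) J x} := by
      refine measureReal_mono ?_ (measure_ne_top _ _)
      intro y hy
      rw [mem_singleton_iff] at hy
      rw [hy]
      rfl
    rw [h2] at h3
    refine h3.trans (le_of_eq ?_)
    rw [Fintype.card_fun, ZMod.card, Fintype.card_fin]
    push_cast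
    rw [one_div, one_div, inv_pow]
  have h2 : ρ.real {x} ≤ 0 := by
    refine ge_of_tendsto' (tendsto_pow_atTop_nhds_zero_of_lt_one (by norm_num) (by norm_num)) h1
  have h3 : ρ.real {x} = 0 := le_antisymm h2 measureReal_nonneg
  rw [measureReal_def, ENNReal.toReal_eq_zero_iff] at h3
  rcases h3 with h3 | h3
  · exact h3
  · exact absurd h3 (measure_ne_top _ _)

lemma exists_good {Y : Type*} [MeasurableSpace Y] [StandardBorelSpace Y] (ν : Measure Y)
    [IsProbabilityMeasure ν] [NullSingletonClass ν] : ∃ e : Y ≃ᵐ Cd, Good ν e := by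
  obtain ⟨ρ, h1, h2, h3⟩ := exists_haar
  obtain ⟨e, he⟩ := exists_equiv ν ρ
  refine ⟨e, fun c => ?_⟩
  have h4 := (he.symm e).comp ((h3 c).comp he)
  exact h4

section approx

variable {X Y : Type*} [MeasurableSpace X] [MeasurableSpace Y]

/-- The algebra of sets which depend on finitely many coordinates of the code of `y`. -/
def Alg (X : Type*) [MeasurableSpace X] (e : Y ≃ᵐ Cd) : Set (Set (X × Y)) :=
  {s | ∃ (J : ℕ) (A : (Fin J → ZMod 2) → Set X), (∀ c, MeasurableSet (A c)) ∧
    s = {p | p.1 ∈ A (piece e J p.2)}}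

lemma alg_enlarge (e : Y ≃ᵐ Cd) {J J' : ℕ} (h : J ≤ J') (A : (Fin J → ZMod 2) → Set X) :
    {p : X × Y | p.1 ∈ A (piece e J p.2)} =
      {p : X × Y | p.1 ∈ (fun c : Fin J' → ZMod 2 => A (fun j => c (Fin.castLE h j)))
        (piece e J' p.2)} := rfl

lemma alg_isSetAlgebra (e : Y ≃ᵐ Cd) : IsSetAlgebra (Alg X e) where
  empty_mem := ⟨0, fun _ => ∅, fun _ => MeasurableSet.empty, by simp⟩
  compl_mem := by
    rintro s ⟨J, A, hA, rfl⟩
    exact ⟨J, fun c => (A c)ᶜ, fun c => (hA c).compl, rfl⟩
  union_mem := by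
    rintro s t ⟨J, A, hA, rfl⟩ ⟨J', A', hA', rfl⟩
    rw [alg_enlarge e (le_max_left J J') A, alg_enlarge e (le_max_right J J') A']
    exact ⟨max J J', fun c => A (fun j => c (Fin.castLE (le_max_left J J') j)) ∪
      A' (fun j => c (Fin.castLE (le_max_right J J') j)), fun c => (hA _).union (hA' _), rfl⟩

lemma measurableSet_fib' (e : Y ≃ᵐ Cd) {J : ℕ} {A : (Fin J → ZMod 2) → Set X}
    (hA : ∀ c, MeasurableSet (A c)) : MeasurableSet {p : X × Y | p.1 ∈ A (piece e J p.2)} := by
  have : {p : X × Y | p.1 ∈ A (piece e J p.2)} =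
      ⋃ c, A c ×ˢ (piece e J ⁻¹' {c}) := by
    ext q
    simp only [mem_ofPred_eq, mem_iUnion, mem_prod, mem_preimage, mem_singleton_iff]
    constructor
    · intro h
      exact ⟨_, h, rfl⟩
    · rintro ⟨c, h, rfl⟩
      exact h
  rw [this]
  exact MeasurableSet.iUnion fun c =>
    (hA c).prod (measurable_piece e J (measurableSet_singleton c))

lemma alg_generate (e : Y ≃ᵐ Cd) :
    (Prod.instMeasurableSpace : MeasurableSpace (X × Y)) =
      MeasurableSpace.generateFrom (Alg X e) := by
  apply le_antisymm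
  · apply sup_le
    · rintro s ⟨A, hA, rfl⟩
      apply MeasurableSpace.measurableSet_generateFrom
      exact ⟨0, fun _ => A, fun _ => hA, rfl⟩
    · let m' : MeasurableSpace (X × Y) := MeasurableSpace.generateFrom (Alg X e)
      have h1 : @Measurable _ _ m' _ (fun p : X × Y => e p.2) := by
        refine @measurable_pi_lambda _ _ _ m' _ _ fun j => ?_
        refine @measurable_to_countable' _ _ _ _ m' _ fun c => ?_
        apply MeasurableSpace.measurableSet_generateFrom
        refine ⟨j + 1, fun d => {_x | d (Fin.last j) = c}, fun d => MeasurableSet.const _, ?_⟩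
        ext p
        rfl
      have h2 : @Measurable _ _ m' _ (fun p : X × Y => e.symm (e p.2)) := e.symm.measurable.comp h1
      have h3 : (fun p : X × Y => e.symm (e p.2)) = Prod.snd := by
        funext p
        simp
      rw [h3] at h2
      exact h2.comap_le
  · apply MeasurableSpace.generateFrom_le
    rintro s ⟨J, A, hA, rfl⟩
    exact measurableSet_fib' e hA

lemma exists_approx (e : Y ≃ᵐ Cd) (ρ : Measure (X × Y)) [IsProbabilityMeasure ρ] {k : ℕ}
    (B : Fin (k + 1) → Set (X × Y)) (hB : ∀ l, MeasurableSet (B l)) {η : ℝ} (hη : 0 < η) :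
    ∃ (J : ℕ) (A : Fin (k + 1) → (Fin J → ZMod 2) → Set X), (∀ l c, MeasurableSet (A l c)) ∧
      ∀ l, ρ.real (symmDiff (B l) {p | p.1 ∈ A l (piece e J p.2)}) ≤ η := by
  have hdense := Measure.MeasureDense.of_generateFrom_isSetAlgebra_finite ρ
    (alg_isSetAlgebra (X := X) e) (alg_generate e)
  have h1 : ∀ l, ∃ (J : ℕ) (A : (Fin J → ZMod 2) → Set X), (∀ c, MeasurableSet (A c)) ∧
      ρ.real (symmDiff (B l) {p | p.1 ∈ A (piece e J p.2)}) ≤ η := by
    intro l
    obtain ⟨t, ⟨J, A, hA, rfl⟩, ht⟩ := hdense.approx (B l) (hB l) (measure_ne_top _ _) η hη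
    exact ⟨J, A, hA, ENNReal.toReal_le_of_le_ofReal hη.le ht.le⟩
  choose J A hA hBA using h1
  have hJ : ∀ l, J l ≤ ∑ l, J l := fun l =>
    Finset.single_le_sum (fun _ _ => Nat.zero_le _) (Finset.mem_univ l)
  refine ⟨∑ l, J l, fun l c => A l (fun j => c (Fin.castLE (hJ l) j)), fun l c => hA l _,
    fun l => ?_⟩
  exact hBA l

end approx

end Pool.Agent.Lib.MP_4abfef_an
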