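import Mathlib
import Pool.Agent.Lib.MP_4abfef_an.Model
import Pool.Agent.Lib.MP_4abfef_an.Key

open MeasureTheory Filter Topology Set

namespace Pool.Agent.Lib.MP_4abfef_an

set_option linter.unusedSectionVars false

section group

variable {Z : Type*} [MeasurableSpace Z] {μ : Measure Z}

/-- Composition of automorphisms. -/
def Aut.comp (S R : Aut μ) : Aut μ := ⟨R.1.trans S.1, S.2.comp R.2⟩

/-- Inverse of an automorphism. -/
def Aut.inv (S : Aut μ) : Aut μ := ⟨S.1.symm, S.2.symm S.1⟩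

lemma Aut.comp_apply (S R : Aut μ) (z : Z) : S.comp R z = S (R z) := rfl

lemma Aut.inv_apply (S : Aut μ) (z : Z) : S.inv z = S.1.symm z := rfl

end group

variable {X Y : Type*} [MeasurableSpace X] [MeasurableSpace Y] {μ : Measure X} {ν : Measure Y}
  [IsProbabilityMeasure μ] [IsProbabilityMeasure ν]

/-- `f` acts over `t` by automorphisms of the fibres. -/
def Skew (μ : Measure X) (ν : Measure Y) (t : X → X) (f : X × Y → X × Y) : Prop :=
  ∃ Φ : X → Aut ν, ∀ᵐ p ∂(μ.prod ν), f p = (t p.1, Φ p.1 p.2)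

lemma Skew.comp {t s : X → X} {f g : X × Y → X × Y} (hf : MeasurePreserving f (μ.prod ν) (μ.prod ν))
    (h1 : Skew μ ν t f) (h2 : Skew μ ν s g) : Skew μ ν (s ∘ t) (g ∘ f) := by
  obtain ⟨Φ, hΦ⟩ := h1
  obtain ⟨Ψ, hΨ⟩ := h2
  refine ⟨fun x => (Ψ (t x)).comp (Φ x), ?_⟩
  filter_upwards [hΦ, hf.quasiMeasurePreserving.ae hΨ] with p h3 h4
  rw [Function.comp_apply, h4, h3]
  rfl

lemma Skew.inv {T : Aut μ} {S : Aut (μ.prod ν)} (h : Skew μ ν T S) :
    Skew μ ν T.1.symm S.1.symm := by
  obtain ⟨Φ, hΦ⟩ := h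
  refine ⟨fun x => (Φ (T.1.symm x)).inv, ?_⟩
  filter_upwards [S.mps.quasiMeasurePreserving.ae hΦ] with p hp
  rw [S.apply_symm] at hp
  have h1 : p.1 = T (S.1.symm p).1 := congrArg Prod.fst hp
  have h2 : p.2 = Φ (S.1.symm p).1 (S.1.symm p).2 := congrArg Prod.snd hp
  have h3 : T.1.symm p.1 = (S.1.symm p).1 := by rw [h1, T.symm_apply]
  rw [h3, h2, Aut.inv_apply, Aut.symm_apply]

/-- The trivial extension `T × id`. -/
def times (T : Aut μ) (ν : Measure Y) [IsProbabilityMeasure ν] : Aut (μ.prod ν) :=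
  ⟨T.1.prodCongr (MeasurableEquiv.refl Y), T.2.prod (MeasurePreserving.id ν)⟩

lemma times_apply (T : Aut μ) (p : X × Y) : times T ν p = (T p.1, p.2) := rfl

lemma skew_times (T : Aut μ) : Skew μ ν T (times T ν) :=
  ⟨fun _ => ⟨MeasurableEquiv.refl Y, MeasurePreserving.id ν⟩, Eventually.of_forall fun _ => rfl⟩

lemma Skew.iter {t : X → X} {f : X × Y → X × Y} (hf : MeasurePreserving f (μ.prod ν) (μ.prod ν))
    (h : Skew μ ν t f) (n : ℕ) : Skew μ ν (t^[n]) (f^[n]) := by
  induction n with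
  | zero => exact ⟨fun _ => ⟨MeasurableEquiv.refl Y, MeasurePreserving.id ν⟩,
      Eventually.of_forall fun _ => rfl⟩
  | succ n ih =>
    rw [Function.iterate_succ', Function.iterate_succ']
    exact Skew.comp (hf.iterate n) ih h

lemma skew_piecewise {t : X → X} (f : ℕ → X × Y → X × Y) (h : ∀ n, Skew μ ν t (f n))
    (ι : X → ℕ) : Skew μ ν t (fun p => f (ι p.1) p) := by
  choose Φ hΦ using h
  refine ⟨fun x => Φ (ι x) x, ?_⟩
  filter_upwards [ae_all_iff.2 hΦ] with p hp
  exact hp (ι p.1)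

lemma Skew.measurePreserving {f : X × Y → X × Y} (hf : Measurable f) (h : Skew μ ν id f) :
    MeasurePreserving f (μ.prod ν) (μ.prod ν) := by
  obtain ⟨Φ, hΦ⟩ := h
  refine ⟨hf, ?_⟩
  ext A hA
  rw [Measure.map_apply hf hA, Measure.prod_apply (hf hA), Measure.prod_apply hA]
  apply lintegral_congr_ae
  have h1 := Measure.ae_ae_of_ae_prod hΦ
  filter_upwards [h1] with x hx
  have h2 : ν (Prod.mk x ⁻¹' (f ⁻¹' A)) = ν (Φ x ⁻¹' (Prod.mk x ⁻¹' A)) := by
    apply measure_congr
    filter_upwards [hx] with y hy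
    apply propext
    change f (x, y) ∈ A ↔ (x, Φ x y) ∈ A
    rw [hy]
    rfl
  rw [h2, (Φ x).mp.measure_preimage]
  exact (measurable_prodMk_left hA).nullMeasurableSet

/-- A measurable map acting by automorphisms of the fibres is an automorphism up to a null
set. -/
lemma Skew.exists_aut [StandardBorelSpace X] [StandardBorelSpace Y] [NullSingletonClass μ]
    [NullSingletonClass ν] {f : X × Y → X × Y} (hf : Measurable f) (h : Skew μ ν id f) :
    ∃ P : Aut (μ.prod ν), ∀ᵐ p ∂(μ.prod ν), P p = f p := by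
  have hmp := h.measurePreserving hf
  obtain ⟨Φ, hΦ⟩ := h
  set N := toMeasurable (μ.prod ν) {p | ¬ f p = (id p.1, Φ p.1 p.2)} with hN
  have h0 : (μ.prod ν) N = 0 := by
    rw [hN, measure_toMeasurable]
    exact hΦ
  obtain ⟨P, hP, hPf⟩ := exists_equiv_ae (μ.prod ν) (μ.prod ν) f hmp Nᶜ
    (measurableSet_toMeasurable _ _).compl (by rw [compl_compl]; exact h0) (by
      intro p hp q hq hpq
      have h1 : f p = (p.1, Φ p.1 p.2) := by
        by_contra hcon
        exact hp (subset_toMeasurable _ _ hcon)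
      have h2 : f q = (q.1, Φ q.1 q.2) := by
        by_contra hcon
        exact hq (subset_toMeasurable _ _ hcon)
      rw [h1, h2] at hpq
      have h3 : p.1 = q.1 := (Prod.ext_iff.1 hpq).1
      have h4 : Φ p.1 p.2 = Φ q.1 q.2 := (Prod.ext_iff.1 hpq).2
      rw [h3] at h4
      exact Prod.ext h3 ((Φ q.1).1.injective h4))
  exact ⟨⟨P, hP⟩, hPf⟩

/-- Every extension can be approximated by extensions which are conjugate, over the base, to the
trivial extension, in such a way that the given sets become almost independent of the base. -/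
theorem exists_near [StandardBorelSpace X] [StandardBorelSpace Y] [NullSingletonClass μ]
    [NullSingletonClass ν] {k : ℕ} (hk : 1 ≤ k) {T : Aut μ} (hT : Mix k T)
    (S₁ : Aut (μ.prod ν)) (hS₁ : S₁ ∈ Ext T ν) (A : Fin (k + 1) → Set (X × Y))
    (hA : ∀ l, MeasurableSet (A l)) {δ η : ℝ} (hδ : 0 < δ) (hη : 0 < η) :
    ∃ (e : Y ≃ᵐ Cd) (J : ℕ) (P S : Aut (μ.prod ν))
      (D : Fin (k + 1) → (Fin J → ZMod 2) → Set X),
      (∀ᵐ p ∂(μ.prod ν), (P p).1 = p.1) ∧ (∀ p, P (S p) = (T (P p).1, (P p).2)) ∧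
      (∀ l c, MeasurableSet (D l c)) ∧
      (∀ l, (μ.prod ν).real
        (symmDiff (A l) {p | (P p).1 ∈ D l (piece e J (P p).2)}) ≤ η) ∧
      (∀ l c, |μ.real (D l c) - (μ.prod ν).real (A l)| ≤ η) ∧ S ∈ Ext T ν ∧
      (μ.prod ν).real {p | S p ≠ S₁ p} ≤ δ := by
  classical
  obtain ⟨e, he⟩ := exists_good ν
  obtain ⟨ι, hι, hιδ⟩ := exists_ret hk hT (half_pos hδ)
  set TX := times T ν with hTX
  -- the first conjugation
  let Rn : ℕ → X × Y → X × Y := fun n p => TX^[n] (S₁.1.symm^[n] p)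
  have hRn : ∀ n, Measurable (Rn n) := fun n =>
    (TX.mpi n).measurable.comp (S₁.mpsi n).measurable
  have hRnS : ∀ n, Skew μ ν id (Rn n) := by
    intro n
    have h1 : Skew μ ν (T.1.symm^[n]) (S₁.1.symm^[n]) := Skew.iter S₁.mps (Skew.inv hS₁) n
    have h2 : Skew μ ν (T^[n]) (TX^[n]) := Skew.iter TX.mp (skew_times T) n
    have h3 := Skew.comp (S₁.mpsi n) h1 h2
    have h4 : T^[n] ∘ T.1.symm^[n] = id := by
      funext x
      exact T.right_iter n x
    rw [h4] at h3
    exact h3
  let Rr : X × Y → X × Y := fun p => Rn (ι p.1) p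
  have hRr : Measurable Rr := by
    have h1 : Measurable (fun q : ℕ × (X × Y) => Rn q.1 q.2) :=
      measurable_from_prod_countable_right fun n => hRn n
    exact h1.comp ((hι.comp measurable_fst).prodMk measurable_id)
  have hRrS : Skew μ ν id Rr := skew_piecewise Rn hRnS ι
  obtain ⟨R, hR⟩ := hRrS.exists_aut hRr
  -- approximation of the sets
  obtain ⟨J, A', hA', hAA'⟩ := exists_approx e (μ.prod ν) (fun l => R.1.symm ⁻¹' A l)
    (fun l => R.mps.measurable (hA l)) (half_pos hη)
  have hcard : (0 : ℝ) < Fintype.card (Fin J → ZMod 2) := by exact_mod_cast Fintype.card_pos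
  obtain ⟨g, hg, hgδ, hgA⟩ := exists_g hk hT (K := Fin J → ZMod 2) (ι := Fin (k + 1) × (Fin J → ZMod 2))
    (fun i => A' i.1 i.2) (fun i => hA' i.1 i.2) (half_pos hδ)
    (η := η / 2 / Fintype.card (Fin J → ZMod 2)) (by positivity)
  -- the second conjugation
  let Gr : X × Y → X × Y := fun p => (p.1, tr e (ex (g p.1)) p.2)
  have hGr : Measurable Gr := by
    have h2 : Measurable (fun p : X × Y => ((g p.1, p.2) : (Fin J → ZMod 2) × Y)) :=
      (hg.comp measurable_fst).prodMk measurable_snd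
    have h1 := (measurable_tr e J).comp h2
    exact measurable_fst.prodMk h1
  have hGrS : Skew μ ν id Gr :=
    ⟨fun x => ⟨tr e (ex (g x)), he _⟩, Eventually.of_forall fun _ => rfl⟩
  obtain ⟨G, hG⟩ := hGrS.exists_aut hGr
  let P : Aut (μ.prod ν) := G.comp R
  let S : Aut (μ.prod ν) := P.inv.comp (TX.comp P)
  let D : Fin (k + 1) → (Fin J → ZMod 2) → Set X := fun l c => {x | x ∈ A' l (c - g x)}
  have hRs : Skew μ ν id R := by
    obtain ⟨Φ, hΦ⟩ := hRrS
    refine ⟨Φ, ?_⟩
    filter_upwards [hΦ, hR] with p h1 h2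
    rw [h2, h1]
  have hGs : Skew μ ν id G := by
    obtain ⟨Φ, hΦ⟩ := hGrS
    refine ⟨Φ, ?_⟩
    filter_upwards [hΦ, hG] with p h1 h2
    rw [h2, h1]
  have hPs : Skew μ ν id P := by
    have h1 := Skew.comp R.mp hRs hGs
    exact h1
  have hP1 : ∀ᵐ p ∂(μ.prod ν), (P p).1 = p.1 := by
    obtain ⟨Φ, hΦ⟩ := hPs
    filter_upwards [hΦ] with p hp
    rw [hp]
    rfl
  have hconj : ∀ p, P (S p) = TX (P p) := fun p => P.apply_symm _
  have hDm : ∀ l c, MeasurableSet (D l c) := by
    intro l c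
    have : D l c = ⋃ b : Fin J → ZMod 2, (g ⁻¹' {b}) ∩ A' l (c - b) := by
      ext x
      simp only [D, mem_ofPred_eq, mem_iUnion, mem_inter_iff, mem_preimage, mem_singleton_iff]
      constructor
      · intro h
        exact ⟨_, rfl, h⟩
      · rintro ⟨b, rfl, h⟩
        exact h
    rw [this]
    exact MeasurableSet.iUnion fun b => (hg (measurableSet_singleton b)).inter (hA' l _)
  have hRae : ∀ᵐ p ∂(μ.prod ν), G (R p) = Gr (R p) := R.mp.quasiMeasurePreserving.ae hG
  refine ⟨e, J, P, S, D, hP1, hconj, hDm, ?_, ?_, ?_, ?_⟩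
  · intro l
    have h1 : (μ.prod ν).real (symmDiff (A l) {p | (P p).1 ∈ D l (piece e J (P p).2)}) =
        (μ.prod ν).real (R ⁻¹' (symmDiff (R.1.symm ⁻¹' A l)
          {p | p.1 ∈ A' l (piece e J p.2)})) := by
      rw [measureReal_def, measureReal_def]
      congr 1
      apply measure_congr
      have h2 : ∀ᵐ p ∂(μ.prod ν), (p ∈ {p | (P p).1 ∈ D l (piece e J (P p).2)} ↔
          R p ∈ {p | p.1 ∈ A' l (piece e J p.2)}) := by
        filter_upwards [hRae] with p hp
        change (G (R p)).1 ∈ D l (piece e J (G (R p)).2) ↔ _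
        rw [hp]
        change (R p).1 ∈ A' l (piece e J (tr e (ex (g (R p).1)) (R p).2) - g (R p).1) ↔
          (R p).1 ∈ A' l (piece e J (R p).2)
        rw [piece_tr, add_sub_cancel_right]
      filter_upwards [h2] with p hp
      apply propext
      change p ∈ symmDiff (A l) {p | (P p).1 ∈ D l (piece e J (P p).2)} ↔
        R p ∈ symmDiff (R.1.symm ⁻¹' A l) {p | p.1 ∈ A' l (piece e J p.2)}
      have q1 : (R p ∈ R.1.symm ⁻¹' A l) ↔ p ∈ A l := by rw [mem_preimage, R.symm_apply]
      rw [mem_symmDiff, mem_symmDiff, q1]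
      exact or_congr (and_congr_right' (not_congr hp)) (and_congr_left' hp)
    rw [h1, real_preimage R.mp]
    · exact (hAA' l).trans (by linarith)
    · exact (R.mps.measurable (hA l)).symmDiff (measurableSet_fib' e (hA' l))
  · intro l c
    have h1 : μ.real (D l c) = ∑ b : Fin J → ZMod 2, μ.real ({x | g x = b} ∩ A' l (c - b)) := by
      have h2 : D l c = ⋃ b ∈ (Finset.univ : Finset (Fin J → ZMod 2)), ({x | g x = b} ∩ A' l (c - b)) := by
        ext x
        simp only [D, mem_ofPred_eq, mem_iUnion, mem_inter_iff, Finset.mem_univ, exists_prop,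
          true_and]
        constructor
        · intro h
          exact ⟨_, rfl, h⟩
        · rintro ⟨b, rfl, h⟩
          exact h
      rw [h2]
      apply measureReal_biUnion_finset
      · intro i _ j _ hij
        rw [Function.onFun, Set.disjoint_left]
        rintro x ⟨hx, -⟩ ⟨hx', -⟩
        exact hij (hx.symm.trans hx')
      · intro i _
        exact (hg (measurableSet_singleton i)).inter (hA' l _)
      · intro i _
        exact measure_ne_top _ _
    have h3 : (μ.prod ν).real {p | p.1 ∈ A' l (piece e J p.2)} =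
        ∑ b : Fin J → ZMod 2, μ.real (A' l b) / Fintype.card (Fin J → ZMod 2) := by
      have h2 : {p : X × Y | p.1 ∈ A' l (piece e J p.2)} =
          ⋃ b ∈ (Finset.univ : Finset (Fin J → ZMod 2)), (A' l b ×ˢ {y | piece e J y = b}) := by
        ext x
        simp only [mem_ofPred_eq, mem_iUnion, mem_prod, Finset.mem_univ, exists_prop,
          true_and]
        constructor
        · intro h
          exact ⟨_, h, rfl⟩
        · rintro ⟨b, h, rfl⟩
          exact h
      rw [h2, measureReal_biUnion_finset]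
      · refine Finset.sum_congr rfl fun b _ => ?_
        rw [measureReal_def, Measure.prod_prod, ENNReal.toReal_mul, ← measureReal_def,
          ← measureReal_def, real_piece he]
        ring
      · intro i _ j _ hij
        rw [Function.onFun, Set.disjoint_left]
        rintro x ⟨-, hx⟩ ⟨-, hx'⟩
        exact hij (hx.symm.trans hx')
      · intro i _
        exact (hA' l _).prod (measurable_piece e J (measurableSet_singleton i))
    have h4 : ∑ b : Fin J → ZMod 2, μ.real (A' l (c - b)) / Fintype.card (Fin J → ZMod 2) =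
        ∑ b : Fin J → ZMod 2, μ.real (A' l b) / Fintype.card (Fin J → ZMod 2) :=
      (Equiv.subLeft c).sum_comp (fun b => μ.real (A' l b) / Fintype.card (Fin J → ZMod 2))
    have h5 : |μ.real (D l c) - (μ.prod ν).real {p | p.1 ∈ A' l (piece e J p.2)}| ≤ η / 2 := by
      rw [h3, h1, ← h4, ← Finset.sum_sub_distrib]
      refine (Finset.abs_sum_le_sum_abs _ _).trans ?_
      refine (Finset.sum_le_sum fun b _ => hgA (l, c - b) b).trans ?_
      rw [Finset.sum_const, Finset.card_univ, nsmul_eq_mul]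
      apply le_of_eq
      field_simp
    have h6 := abs_real_sub_le_symmDiff (ρ := μ.prod ν) (R.1.symm ⁻¹' A l)
      {p | p.1 ∈ A' l (piece e J p.2)}
    rw [real_preimage R.mps (hA l)] at h6
    have h7 := hAA' l
    have h8 := abs_sub_le (μ.real (D l c))
      ((μ.prod ν).real {p | p.1 ∈ A' l (piece e J p.2)}) ((μ.prod ν).real (A l))
    rw [abs_sub_comm ((μ.prod ν).real {p | p.1 ∈ A' l (piece e J p.2)})] at h8
    linarith
  · have h1 : Skew μ ν T (TX ∘ P) := by
      have := Skew.comp P.mp hPs (skew_times T)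
      exact this
    have h2 : Skew μ ν id P.1.symm := by
      have hid : Skew μ ν (⟨MeasurableEquiv.refl X, MeasurePreserving.id μ⟩ : Aut μ) P := hPs
      exact Skew.inv hid
    have h3 := Skew.comp (TX.mp.comp P.mp) h1 h2
    exact h3
  · have hsub : {p | S p ≠ S₁ p} ≤ᵐ[μ.prod ν]
        (Prod.fst ⁻¹' {x | ι (T x) ≠ ι x + 1} ∪ Prod.fst ⁻¹' {x | g (T x) ≠ g x} :
          Set (X × Y)) := by
      have a1 : ∀ᵐ p ∂(μ.prod ν), R (S₁ p) = Rr (S₁ p) := S₁.mp.quasiMeasurePreserving.ae hR
      have a2 : ∀ᵐ p ∂(μ.prod ν), G (R (S₁ p)) = Gr (R (S₁ p)) :=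
        S₁.mp.quasiMeasurePreserving.ae hRae
      have a3 : ∀ᵐ p ∂(μ.prod ν), (S₁ p).1 = T p.1 := by
        obtain ⟨Φ, hΦ⟩ := hS₁
        filter_upwards [hΦ] with p hp
        rw [hp]
      have a4 : ∀ᵐ p ∂(μ.prod ν), (Rr p).1 = p.1 := by
        obtain ⟨Φ, hΦ⟩ := hRrS
        filter_upwards [hΦ] with p hp
        rw [hp]
        rfl
      filter_upwards [hR, hRae, a1, a2, a3, a4] with p b1 b2 b3 b4 b5 b6
      intro hp
      by_contra hcon
      change ¬ (p.1 ∈ {x | ι (T x) ≠ ι x + 1} ∨ p.1 ∈ {x | g (T x) ≠ g x}) at hcon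
      simp only [mem_ofPred_eq, not_or, not_not] at hcon
      obtain ⟨c1, c2⟩ := hcon
      apply hp
      have c3 : P (S₁ p) = TX (P p) := by
        have c4 : Rr (S₁ p) = TX (Rr p) := by
          change TX^[ι (S₁ p).1] (S₁.1.symm^[ι (S₁ p).1] (S₁ p)) =
            TX (TX^[ι p.1] (S₁.1.symm^[ι p.1] p))
          have q2 : S₁.1.symm^[ι p.1 + 1] (S₁ p) = S₁.1.symm^[ι p.1] p := by
            rw [Function.iterate_succ_apply, S₁.symm_apply]
          rw [b5, c1, q2, Function.iterate_succ_apply']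
        change G (R (S₁ p)) = TX (G (R p))
        rw [b4, b2, b3, c4, b1]
        change (T (Rr p).1, tr e (ex (g (T (Rr p).1))) (Rr p).2) =
          (T (Rr p).1, tr e (ex (g (Rr p).1)) (Rr p).2)
        rw [b6, c2]
      have c5 : P (S p) = P (S₁ p) := by rw [hconj, c3]
      exact P.1.injective c5
    have m1 : MeasurableSet {x | ι (T x) ≠ ι x + 1} :=
      (measurableSet_eq_fun (hι.comp T.mp.measurable)
        ((measurable_of_countable (fun j : ℕ => j + 1)).comp hι)).compl
    have m2 : MeasurableSet {x | g (T x) ≠ g x} :=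
      (measurableSet_eq_fun (hg.comp T.mp.measurable) hg).compl
    have hmp : MeasurePreserving (Prod.fst : X × Y → X) (μ.prod ν) μ := measurePreserving_fst
    have h1 : (μ.prod ν).real {p | S p ≠ S₁ p} ≤ (μ.prod ν).real
        (Prod.fst ⁻¹' {x | ι (T x) ≠ ι x + 1} ∪ Prod.fst ⁻¹' {x | g (T x) ≠ g x} :
          Set (X × Y)) := ENNReal.toReal_mono (measure_ne_top _ _) (measure_mono_ae hsub)
    refine (h1.trans (measureReal_union_le _ _)).trans ?_
    rw [real_preimage hmp m1, real_preimage hmp m2]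
    linarith

end Pool.Agent.Lib.MP_4abfef_an
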