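import Mathlib
import Pool.Agent.Lib.MP_4abfef_an.Skew

open MeasureTheory Filter Topology Set

namespace Pool.Agent.Lib.MP_4abfef_an

/-- If `T` is mixing of multiplicity `k`, so is a typical extension of `T`. -/
theorem main {X Y : Type*} [MeasurableSpace X] [StandardBorelSpace X] [MeasurableSpace Y]
    [StandardBorelSpace Y] (μ : Measure X) [IsProbabilityMeasure μ] [NullSingletonClass μ]
    (ν : Measure Y) [IsProbabilityMeasure ν] [NullSingletonClass ν] {k : ℕ} (hk : 1 ≤ k)
    (T : Aut μ) (hT : Mix k T) :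
    ∀ᶠ S : Ext T ν in residual (Ext T ν), Mix k S.1 := by
  obtain ⟨𝒟, h𝒟c, h𝒟⟩ := exists_countable_measureDense (μ.prod ν)
  have hcount : Countable (Fin (k + 1) → 𝒟) := by
    have := h𝒟c.to_subtype
    infer_instance
  -- the good sets
  let O : (Fin (k + 1) → 𝒟) → ℕ → Set (Ext T ν) := fun A q =>
    interior {S | ∀ᶠ m : Fin k → ℕ in atTop,
      |(μ.prod ν).real {p | ∀ l, S.1.1.symm^[Mi m l] p ∈ (A l).1} -
        ∏ l, (μ.prod ν).real (A l).1| ≤ 1 / ((q : ℝ) + 1)}
  have hO : ∀ A q, O A q ∈ residual (Ext T ν) := by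
    intro A q
    apply residual_of_dense_open isOpen_interior
    intro S₁
    have hq : (0 : ℝ) < 1 / ((q : ℝ) + 1) := by positivity
    set η : ℝ := 1 / ((q : ℝ) + 1) / (3 * (k + 1) + 1) with hη
    have hη0 : 0 < η := by positivity
    have hηq : (3 * (k + 1) + 1) * η = 1 / ((q : ℝ) + 1) := by
      rw [hη]
      field_simp
    have hA : ∀ l, MeasurableSet (A l).1 := fun l => h𝒟.measurable _ (A l).2
    have hex : ∀ n : ℕ, ∃ S : Ext T ν, S ∈ O A q ∧
        (μ.prod ν).real {p | S.1 p ≠ S₁.1 p} ≤ 1 / ((n : ℝ) + 1) := by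
      intro n
      obtain ⟨e, J, P, S, D, h1, h2, h3, h4, h5, h6, h7⟩ := exists_near hk hT S₁.1 S₁.2
        (fun l => (A l).1) hA (δ := 1 / ((n : ℝ) + 1)) (by positivity) hη0
      refine ⟨⟨S, h6⟩, ?_, h7⟩
      have h8 := key hk hT (piece e J) (measurable_piece e J) P h1 S h2 (fun l => (A l).1) hA D
        h3 hη0 h4 h5
      rw [hηq] at h8
      change (⟨S, h6⟩ : Ext T ν) ∈ interior _
      rw [mem_interior_iff_mem_nhds]
      have h9 : Tendsto (Subtype.val : Ext T ν → Aut (μ.prod ν)) (𝓝 ⟨S, h6⟩) (𝓝 S) :=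
        continuous_subtype_val.continuousAt
      filter_upwards [h9.eventually h8] with S' hS'
      exact hS' S'.2
    choose S hS hSn using hex
    refine mem_closure_of_tendsto (f := S) (b := atTop) ?_ (Eventually.of_forall hS)
    rw [tendsto_subtype_rng]
    apply tendsto_of_ne_small
    exact squeeze_zero (fun _ => measureReal_nonneg) hSn tendsto_one_div_add_atTop_nhds_zero_nat
  have hall : ∀ᶠ S : Ext T ν in residual (Ext T ν), ∀ A : Fin (k + 1) → 𝒟, ∀ q, S ∈ O A q := by
    rw [eventually_countable_forall]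
    intro A
    rw [eventually_countable_forall]
    intro q
    exact hO A q
  filter_upwards [hall] with S hS
  refine mix_of_dense S.1 𝒟 h𝒟.measurable ?_ ?_
  · intro s hs ε hε
    obtain ⟨t, ht, hst⟩ := h𝒟.approx s hs (measure_ne_top _ _) ε hε
    refine ⟨t, ht, ?_⟩
    rw [measureReal_def]
    exact (ENNReal.lt_ofReal_iff_toReal_lt (measure_ne_top _ _)).1 hst
  · intro A hA
    rw [Metric.tendsto_nhds]
    intro ε hε
    obtain ⟨q, hq⟩ := exists_nat_one_div_lt hε
    have h1 := interior_subset (hS (fun l => ⟨A l, hA l⟩) q)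
    have h2 : ∀ᶠ m : Fin k → ℕ in atTop,
      |(μ.prod ν).real {p | ∀ l, S.1.1.symm^[Mi m l] p ∈ A l} -
        ∏ l, (μ.prod ν).real (A l)| ≤ 1 / ((q : ℝ) + 1) := h1
    filter_upwards [h2] with m hm
    rw [Real.dist_eq]
    exact hm.trans_lt hq

end Pool.Agent.Lib.MP_4abfef_an
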